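import Pool.Agent.H96.PC.Obj

/-!
Calm steps.
-/

namespace Pool.Agent.H96.PC

open Multiset

variable {Q : Type}

theorem AE_calm (x y : ℕ) : ∀ z ∈ AE x y, calm z := by
  intro z hz
  rcases Multiset.mem_add.1 hz with h | h
  · exact Or.inl (Multiset.eq_of_mem_replicate h)
  · exact Or.inr (Multiset.eq_of_mem_replicate h)

theorem Block_s1_calm {x x' : S} (hx : calm x) (h : s1 x = some x') : False := by
  rcases hx with rfl | rfl <;> simp [s1] at h

theorem calm_step (acts : Q → List (Act Q)) {k : ℕ} {κ : K Q} {Y : Multiset S} {n : ℕ}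
    (hκ : k1 κ = none) (hY : ∀ z ∈ Y, calm z) (h : Acc acts k (some κ, Y) n) :
    ∃ k' κ' w j n', k = k' + 1 ∧ k2 acts κ κ' w j ∧ Acc acts k' (κ', w + Y) n' ∧ n = j + n' := by
  cases k with
  | zero => exact absurd h.1 (by simp)
  | succ k =>
    obtain ⟨c', j, n', hs, ha, hn⟩ := h
    cases hs with
    | ss hx hy => exact (Block_s1_calm (hY _ (mem_cons_self _ _)) hx).elim
    | sk hx hk => exact (Block_s1_calm (hY _ (mem_cons_self _ _)) hx).elim
    | ks hk hy => rw [hκ] at hk; exact absurd hk (by simp)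
    | si hx h1 h2 => exact (Block_s1_calm (hY _ (mem_cons_self _ _)) hx).elim
    | ki hk h1 => rw [hκ] at hk; exact absurd hk (by simp)
    | ik hk h1 => exact ⟨k, _, _, _, _, rfl, hk, ha, hn⟩

theorem block_sound (acts : Q → List (Act Q)) {k : ℕ} {q : Q} {Y : Multiset S} {n : ℕ}
    (hY : ∀ z ∈ Y, calm z) (h : Acc acts k (some (.b0 q), Y) n) :
    ∃ k' κ' w j n', k = k' + 5 ∧ k2 acts (.b4 q) κ' w j ∧ Acc acts k' (κ', w + Y) n' ∧
      n = j + n' := by
  obtain ⟨k1', κ1, w1, j1, n1, rfl, h1, ha1, rfl⟩ := calm_step acts rfl hY h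
  cases h1
  rw [zero_add] at ha1
  obtain ⟨k2', κ2, w2, j2, n2, rfl, h2, ha2, rfl⟩ := calm_step acts rfl hY ha1
  cases h2
  rw [zero_add] at ha2
  obtain ⟨k3', κ3, w3, j3, n3, rfl, h3, ha3, rfl⟩ := calm_step acts rfl hY ha2
  cases h3
  rw [zero_add] at ha3
  obtain ⟨k4', κ4, w4, j4, n4, rfl, h4, ha4, rfl⟩ := calm_step acts rfl hY ha3
  cases h4
  rw [zero_add] at ha4
  obtain ⟨k5', κ5, w5, j5, n5, rfl, h5, ha5, rfl⟩ := calm_step acts rfl hY ha4
  exact ⟨k5', κ5, w5, j5, n5, rfl, h5, ha5, by simp⟩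

theorem acc_none (acts : Q → List (Act Q)) : ∀ (k : ℕ) (Y : Multiset S) (n : ℕ),
    Acc acts k (none, Y) n → n = 0 := by
  intro k
  induction k with
  | zero => intro Y n h; exact h.2
  | succ k ih =>
    intro Y n h
    obtain ⟨c', j, n', hs, ha, hn⟩ := h
    cases hs with
    | ss hx hy => rw [hn, ih _ _ ha]
    | si hx h1 h2 => rw [hn, ih _ _ ha]
    | is hx h1 => rw [hn, ih _ _ ha]

theorem block_compl (acts : Q → List (Act Q)) {k : ℕ} {q : Q} {κ' : Option (K Q)}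
    {w Y : Multiset S} {j n : ℕ} (hY : ∀ z ∈ Y, calm z) (h2 : k2 acts (.b4 q) κ' w j)
    (h : Acc acts k (κ', w + Y) n) : Acc acts (k + 5) (some (.b0 q), Y) (j + n) := by
  have a4 : Acc acts (k + 1) (some (.b4 q), Y) (j + n) := ⟨_, _, _, CStep.ik h2 hY, h, rfl⟩
  have a3 : Acc acts (k + 2) (some (.b3 q), Y) (j + n) :=
    ⟨(some (.b4 q), 0 + Y), 0, j + n, CStep.ik (k2.b3 q) hY, by rw [zero_add]; exact a4,
      (zero_add _).symm⟩
  have a2 : Acc acts (k + 3) (some (.b2 q), Y) (j + n) :=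
    ⟨(some (.b3 q), 0 + Y), 0, j + n, CStep.ik (k2.b2 q) hY, by rw [zero_add]; exact a3,
      (zero_add _).symm⟩
  have a1 : Acc acts (k + 4) (some (.b1 q), Y) (j + n) :=
    ⟨(some (.b2 q), 0 + Y), 0, j + n, CStep.ik (k2.b1 q) hY, by rw [zero_add]; exact a2,
      (zero_add _).symm⟩
  exact ⟨(some (.b1 q), 0 + Y), 0, j + n, CStep.ik (k2.b0 q) hY, by rw [zero_add]; exact a1,
      (zero_add _).symm⟩

theorem stop_compl (acts : Q → List (Act Q)) (y : ℕ) : ∃ k, Acc acts k (none, AE 0 y) 0 := by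
  induction y with
  | zero => exact ⟨0, by simp [AE], rfl⟩
  | succ y ih =>
    obtain ⟨k, hk⟩ := ih
    have e1 : AE 0 (y + 1) = .E ::ₘ AE 0 y := by
      simp [AE, Multiset.replicate_succ]
    refine ⟨k + 2, ?_⟩
    rw [e1]
    refine ⟨(none, {.e} + AE 0 y), 0, 0, CStep.is rfl (AE_calm 0 y), ?_, rfl⟩
    refine ⟨(none, 0 + AE 0 y), 0, 0, ?_, ?_, rfl⟩
    · rw [Multiset.singleton_add]
      exact CStep.is rfl (AE_calm 0 y)
    · rw [zero_add]
      exact hk

theorem win_compl (acts : Q → List (Act Q)) {k x y : ℕ} {q : Q} {n : ℕ}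
    (h : Acc acts k (some (.b0 q), AE x y) n) :
    Acc acts (k + 2) (some (.a0 q), AE x (y + 1)) n := by
  have e1 : AE x (y + 1) = .E ::ₘ AE x y := by
    simp [AE, Multiset.replicate_succ, Multiset.add_cons]
  rw [e1]
  refine ⟨(some (.a1 q), {.e} + AE x y), 0, n, CStep.ks rfl rfl, ?_, (zero_add _).symm⟩
  refine ⟨(some (.b0 q), 0 + AE x y), 0, n, ?_, ?_, (zero_add _).symm⟩
  · rw [Multiset.singleton_add]
    exact CStep.ks rfl rfl
  · rw [zero_add]
    exact h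

end Pool.Agent.H96.PC
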