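import Pool.Agent.H96.PC.Sys

/-!
Local steps of the region contents versus trap-free steps of configurations.
-/

set_option linter.unusedSectionVars false
set_option linter.unreachableTactic false
set_option linter.unusedTactic false
set_option linter.unusedSimpArgs false

namespace Pool.Agent.H96.PC

open Multiset Pool.Agent.H75.PSys

variable {Q : Type} [Fintype Q] [DecidableEq Q]

theorem ms_clean (c : Cf Q) : Obj.c1 ∉ ms c ∧ Obj.c2 ∉ ms c ∧ Obj.trap ∉ ms c := by
  obtain ⟨κ, X⟩ := c
  unfold ms
  simp only [mem_add, mem_map, not_or]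
  refine ⟨⟨?_, ?_⟩, ⟨?_, ?_⟩, ⟨?_, ?_⟩⟩
  all_goals first
    | (cases κ <;> simp [kms])
    | (rintro ⟨s, _, hs⟩; cases hs)

theorem ls_trap {acts : Q → List (Act Q)} {X X' : Multiset (Obj Q)} {j : ℕ}
    (hX : Obj.trap ∈ X) (h : LS acts X X' j) : Obj.trap ∈ X' := by
  obtain ⟨a, b, hL, rfl, -⟩ := h
  rw [mem_add]
  by_cases ha : ∃ v, a = some (Obj.trap, v)
  · obtain ⟨v, rfl⟩ := ha
    right
    have hv : v ∈ (T1 Obj.trap : Set (Out (Obj Q))) := hL.val1 _ _ rfl
    have hv' : v = one Obj.trap := hv
    rw [prods_some, fl_add, mem_add]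
    left
    rw [hv', one, fl_singleton, if_pos rfl]
    exact mem_singleton_self _
  · left
    rw [mem_sub, count_add]
    have h1 : count Obj.trap (used a) = 0 := by
      rcases a with _ | ⟨o, v⟩
      · simp
      · rw [used_some, count_singleton, if_neg]
        intro h
        exact ha ⟨v, by rw [h]⟩
    have h2 : count Obj.trap (used b) = 0 := by
      rcases b with _ | ⟨o, v⟩
      · simp
      · rw [used_some, count_singleton, if_neg]
        intro h
        have hv : v ∈ T2 acts o := hL.val2 _ _ rfl
        rw [← h] at hv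
        exact hv
    rw [h1, h2]
    exact count_pos.2 hX

theorem halt_ms {acts : Q → List (Act Q)} (c : Cf Q) :
    (∀ o ∈ ms c, T1 o = ∅ ∧ T2 acts o = ∅) ↔ c = (none, 0) := by
  constructor
  · intro h
    obtain ⟨κ, X⟩ := c
    have hκ : κ = none := by
      rcases κ with _ | κ
      · rfl
      · exfalso
        obtain ⟨h1, h2⟩ := h (.k κ) (by simp [ms, kms])
        cases κ <;> simp [T1] at h1
    have hX : X = 0 := by
      rw [eq_zero_iff_forall_notMem]
      intro s hs
      obtain ⟨h1, h2⟩ := h (.st s) (by
        unfold ms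
        rw [mem_add, mem_map]
        exact Or.inr ⟨s, hs, rfl⟩)
      cases s <;> simp [T1, T2] at h1 h2
    rw [hκ, hX]
  · rintro rfl o ho
    simp [ms, kms] at ho

/-- The construction of a local step. -/
theorem ls_mk {acts : Q → List (Act Q)} {X X' R : Multiset (Obj Q)} {a b : Pick (Obj Q)} {j : ℕ}
    (h1 : ∀ o v, a = some (o, v) → v ∈ T1 o) (h2 : ∀ o v, b = some (o, v) → v ∈ T2 acts o)
    (hX : X = used a + used b + R)
    (m1 : a = none → ∀ o ∈ R, T1 o = ∅) (m2 : b = none → ∀ o ∈ R, T2 acts o = ∅)
    (hX' : X' = R + fl .here (prods a + prods b))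
    (hj : j = card (fl .out (prods a + prods b))) : LS acts X X' j := by
  refine ⟨a, b, ⟨h1, h2, ?_, ?_, ?_⟩, ?_, hj⟩
  · rw [hX]
    exact le_add_of_nonneg_right zero_le
  · rintro rfl o ho
    rw [hX, used_none, zero_add, add_tsub_cancel_left] at ho
    exact m1 rfl o ho
  · rintro rfl o ho
    rw [hX, used_none, add_zero, add_tsub_cancel_left] at ho
    exact m2 rfl o ho
  · rw [hX', hX, add_tsub_cancel_left]

theorem T1_st {x x' : S} (h : s1 x = some x') : one (.st x') ∈ (T1 (.st x) : Set (Out (Obj Q))) := by
  cases x <;> simp only [s1, Option.some.injEq, reduceCtorEq] at h <;> subst h <;>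
    exact Set.mem_singleton _

theorem T1_k {κ κ' : K Q} (h : k1 κ = some κ') :
    one (.k κ') ∈ (T1 (.k κ) : Set (Out (Obj Q))) := by
  cases κ <;> simp only [k1, Option.some.injEq, reduceCtorEq] at h <;> subst h <;>
    exact Set.mem_singleton _

theorem T2_st (acts : Q → List (Act Q)) {y : S} {v : Multiset S} (h : s2 y = some v) :
    v.map (fun s => ((Obj.st s : Obj Q), Target.here)) ∈ T2 acts (.st y) := by
  cases y <;> simp only [s2, Option.some.injEq, reduceCtorEq] at h <;> subst h <;>
    simp [T2, one]

theorem fl_here_map (v : Multiset S) :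
    fl .here (v.map (fun s => ((Obj.st s : Obj Q), Target.here))) = v.map .st := by
  induction v using Multiset.induction_on with
  | empty => simp
  | cons s v ih => rw [map_cons, fl_cons, if_pos rfl, ih, map_cons]

theorem fl_out_map (v : Multiset S) :
    fl .out (v.map (fun s => ((Obj.st s : Obj Q), Target.here))) = 0 := by
  induction v using Multiset.induction_on with
  | empty => simp
  | cons s v ih => rw [map_cons, fl_cons, if_neg (by simp), ih]

theorem fl_here_one (o : Obj Q) : fl .here (one o) = {o} := by
  rw [one, fl_singleton, if_pos rfl]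

theorem fl_out_one (o : Obj Q) : fl .out (one o) = 0 := by
  rw [one, fl_singleton, if_neg (by simp)]

theorem T2_k {acts : Q → List (Act Q)} {κ : K Q} {κ' : Option (K Q)} {w : Multiset S} {j : ℕ}
    (h : k2 acts κ κ' w j) : ∃ v ∈ T2 acts (.k κ),
      fl .here v = kms κ' + w.map .st ∧ card (fl .out v) = j := by
  have e : ∀ m : ℕ, (replicate m ((.st .A0 : Obj Q), Target.here)) =
      (replicate m S.A0).map (fun s => ((Obj.st s : Obj Q), Target.here)) := by
    intro m
    rw [map_replicate]
  cases h with
  | b0 q => exact ⟨one (.k (.b1 q)), rfl, by rw [fl_here_one]; simp [kms], by rw [fl_out_one]; rfl⟩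
  | b1 q => exact ⟨one (.k (.b2 q)), rfl, by rw [fl_here_one]; simp [kms], by rw [fl_out_one]; rfl⟩
  | b2 q => exact ⟨one (.k (.b3 q)), rfl, by rw [fl_here_one]; simp [kms], by rw [fl_out_one]; rfl⟩
  | b3 q => exact ⟨one (.k (.b4 q)), rfl, by rw [fl_here_one]; simp [kms], by rw [fl_out_one]; rfl⟩
  | t0 q => exact ⟨one (.k (.t1 q)), rfl, by rw [fl_here_one]; simp [kms], by rw [fl_out_one]; rfl⟩
  | t1 q => exact ⟨one (.k (.t2 q)), rfl, by rw [fl_here_one]; simp [kms], by rw [fl_out_one]; rfl⟩
  | t2 q => exact ⟨one (.k (.u q)), rfl, by rw [fl_here_one]; simp [kms], by rw [fl_out_one]; rfl⟩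
  | goto q o l hα =>
    refine ⟨actOut (.goto o l), ⟨_, hα, rfl⟩, ?_, ?_⟩
    · simp only [actOut]
      rw [fl_add, fl_here_one]
      cases o
      · simp [kms]
      · simp [kms, fl_singleton]
    · simp only [actOut]
      rw [fl_add, fl_out_one]
      cases o
      · simp
      · simp [fl_singleton]
  | win q m l hα =>
    refine ⟨actOut (.win m l), ⟨_, hα, rfl⟩, ?_, ?_⟩
    · simp only [actOut]
      rw [e, fl_add, fl_here_one, fl_here_map, add_comm]
      rfl
    · simp only [actOut]
      rw [e, fl_add, fl_out_one, fl_out_map]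
      rfl
  | pipe q m l hα =>
    refine ⟨actOut (.pipe m l), ⟨_, hα, rfl⟩, ?_, ?_⟩
    · simp only [actOut]
      rw [e, fl_add, fl_here_one, fl_here_map, add_comm]
      rfl
    · simp only [actOut]
      rw [e, fl_add, fl_out_one, fl_out_map]
      rfl
  | stop q hα =>
    exact ⟨actOut .stop, ⟨_, hα, rfl⟩, by simp [actOut, kms], by simp [actOut]⟩

theorem T2_st_none (acts : Q → List (Act Q)) {z : S} (h : s2 z = none) :
    T2 acts (.st z) = ∅ := by
  cases z <;> simp only [s2, reduceCtorEq] at h <;> rfl

theorem T1_st_calm {z : S} (h : calm z) : (T1 (.st z) : Set (Out (Obj Q))) = ∅ := by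
  rcases h with rfl | rfl <;> rfl

theorem T2_k_none (acts : Q → List (Act Q)) {κ : K Q} (h : k1 κ ≠ none) :
    T2 acts (.k κ) = ∅ := by
  cases κ <;> simp only [k1, ne_eq, not_true_eq_false] at h <;> rfl

theorem ls_of_cstep {acts : Q → List (Act Q)} {c c' : Cf Q} {j : ℕ} (h : CStep acts c c' j) :
    LS acts (ms c) (ms c') j := by
  have inj1 : ∀ {o o' : Obj Q} {v v' : Out (Obj Q)}, (some (o, v) : Pick (Obj Q)) = some (o', v') →
      o = o' ∧ v = v' := by
    intro o o' v v' h
    simpa using h
  cases h with
  | @ss κ x x' y v Z h1 h2 =>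
    refine ls_mk (R := kms κ + Z.map .st) (a := some (.st x, one (.st x')))
      (b := some (.st y, v.map (fun s => ((Obj.st s : Obj Q), Target.here)))) ?_ ?_ ?_ ?_ ?_ ?_ ?_
    · intro o w h
      obtain ⟨rfl, rfl⟩ := inj1 h
      exact T1_st h1
    · intro o w h
      obtain ⟨rfl, rfl⟩ := inj1 h
      exact T2_st acts h2
    · simp only [ms, used_some, Multiset.map_cons, ← singleton_add, Multiset.map_singleton, Multiset.map_add]
      abel
    · intro h; simp at h
    · intro h; simp at h
    · rw [prods_some, prods_some, fl_add, fl_here_one, fl_here_map]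
      simp only [ms, Multiset.map_cons, Multiset.map_add, ← singleton_add, Multiset.map_singleton]
      abel
    · rw [prods_some, prods_some, fl_add, fl_out_one, fl_out_map]
      rfl
  | @sk κ κ' x x' w Z j h1 h2 =>
    obtain ⟨v, hv, hh, ho⟩ := T2_k h2
    refine ls_mk (R := Z.map .st) (a := some (.st x, one (.st x'))) (b := some (.k κ, v))
      ?_ ?_ ?_ ?_ ?_ ?_ ?_
    · intro o w h
      obtain ⟨rfl, rfl⟩ := inj1 h
      exact T1_st h1
    · intro o w h
      obtain ⟨rfl, rfl⟩ := inj1 h
      exact hv
    · simp only [ms, used_some, Multiset.map_cons, ← singleton_add, Multiset.map_singleton, kms, Multiset.map_add]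
      abel
    · intro h; simp at h
    · intro h; simp at h
    · rw [prods_some, prods_some, fl_add, fl_here_one, hh]
      simp only [ms, Multiset.map_cons, Multiset.map_add, ← singleton_add, Multiset.map_singleton]
      abel
    · rw [prods_some, prods_some, fl_add, fl_out_one, zero_add, ho]
  | @ks κ κ' y v Z h1 h2 =>
    refine ls_mk (R := Z.map .st) (a := some (.k κ, one (.k κ')))
      (b := some (.st y, v.map (fun s => ((Obj.st s : Obj Q), Target.here)))) ?_ ?_ ?_ ?_ ?_ ?_ ?_
    · intro o w h
      obtain ⟨rfl, rfl⟩ := inj1 h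
      exact T1_k h1
    · intro o w h
      obtain ⟨rfl, rfl⟩ := inj1 h
      exact T2_st acts h2
    · simp only [ms, used_some, Multiset.map_cons, ← singleton_add, Multiset.map_singleton, kms, Multiset.map_add]
      abel
    · intro h; simp at h
    · intro h; simp at h
    · rw [prods_some, prods_some, fl_add, fl_here_one, fl_here_map]
      simp only [ms, Multiset.map_add, kms]
      abel
    · rw [prods_some, prods_some, fl_add, fl_out_one, fl_out_map]
      rfl
  | @si κ x x' Z h1 h2 h3 =>
    refine ls_mk (R := kms κ + Z.map .st) (a := some (.st x, one (.st x'))) (b := none)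
      ?_ ?_ ?_ ?_ ?_ ?_ ?_
    · intro o w h
      obtain ⟨rfl, rfl⟩ := inj1 h
      exact T1_st h1
    · intro o w h
      simp at h
    · simp only [ms, used_some, used_none, Multiset.map_cons, ← singleton_add, Multiset.map_singleton, Multiset.map_add]
      abel
    · intro h; simp at h
    · rintro - o ho
      rw [mem_add, mem_map] at ho
      rcases ho with ho | ⟨z, hz, rfl⟩
      · rcases κ with _ | κ
        · simp [kms] at ho
        · rw [kms, mem_singleton] at ho
          rw [ho]
          exact T2_k_none acts (h3 κ rfl)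
      · exact T2_st_none acts (h2 z hz)
    · rw [prods_some, prods_none, add_zero, fl_here_one]
      simp only [ms, Multiset.map_cons, ← singleton_add, Multiset.map_singleton, Multiset.map_add]
      abel
    · rw [prods_some, prods_none, add_zero, fl_out_one]
      rfl
  | @ki κ κ' Z h1 h2 =>
    refine ls_mk (R := Z.map .st) (a := some (.k κ, one (.k κ'))) (b := none)
      ?_ ?_ ?_ ?_ ?_ ?_ ?_
    · intro o w h
      obtain ⟨rfl, rfl⟩ := inj1 h
      exact T1_k h1
    · intro o w h
      simp at h
    · simp only [ms, used_some, used_none, kms, add_zero]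
    · intro h; simp at h
    · rintro - o ho
      rw [mem_map] at ho
      obtain ⟨z, hz, rfl⟩ := ho
      exact T2_st_none acts (h2 z hz)
    · rw [prods_some, prods_none, add_zero, fl_here_one]
      simp only [ms, kms]
      abel
    · rw [prods_some, prods_none, add_zero, fl_out_one]
      rfl
  | @is y v Z h1 h2 =>
    refine ls_mk (R := Z.map .st) (a := none)
      (b := some (.st y, v.map (fun s => ((Obj.st s : Obj Q), Target.here)))) ?_ ?_ ?_ ?_ ?_ ?_ ?_
    · intro o w h
      simp at h
    · intro o w h
      obtain ⟨rfl, rfl⟩ := inj1 h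
      exact T2_st acts h1
    · simp only [ms, used_some, used_none, Multiset.map_cons, ← singleton_add, Multiset.map_singleton, kms, Multiset.map_add]
      abel
    · rintro - o ho
      rw [mem_map] at ho
      obtain ⟨z, hz, rfl⟩ := ho
      exact T1_st_calm (h2 z hz)
    · intro h; simp at h
    · rw [prods_some, prods_none, zero_add, fl_here_map]
      simp only [ms, Multiset.map_add, kms]
      abel
    · rw [prods_some, prods_none, zero_add, fl_out_map]
      rfl
  | @ik κ κ' w Z j h1 h2 =>
    obtain ⟨v, hv, hh, ho⟩ := T2_k h1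
    refine ls_mk (R := Z.map .st) (a := none) (b := some (.k κ, v)) ?_ ?_ ?_ ?_ ?_ ?_ ?_
    · intro o w h
      simp at h
    · intro o w h
      obtain ⟨rfl, rfl⟩ := inj1 h
      exact hv
    · simp only [ms, used_some, used_none, kms, zero_add]
    · rintro - o ho
      rw [mem_map] at ho
      obtain ⟨z, hz, rfl⟩ := ho
      exact T1_st_calm (h2 z hz)
    · intro h; simp at h
    · rw [prods_some, prods_none, zero_add, hh]
      simp only [ms, Multiset.map_add]
      abel
    · rw [prods_some, prods_none, zero_add, ho]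

end Pool.Agent.H96.PC
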