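import Pool.Agent.H96.PC.Bridge

/-!
Every local step produces the trap object or is a trap-free step of configurations.
-/

namespace Pool.Agent.H96.PC

open Multiset Pool.Agent.H75.PSys

variable {Q : Type} [Fintype Q] [DecidableEq Q]

private theorem Br2_T1 {o : Obj Q} {v : Out (Obj Q)} (h : v ∈ T1 o) :
    v = one .trap ∨ (∃ x x', o = .st x ∧ s1 x = some x' ∧ v = one (.st x')) ∨
      (∃ κ κ', o = .k κ ∧ k1 κ = some κ' ∧ v = one (.k κ')) := by
  cases o with
  | c1 => exact absurd h (by simp [T1])
  | c2 => exact absurd h (by simp [T1])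
  | trap => exact Or.inl (by simpa [T1] using h)
  | out => exact absurd h (by simp [T1])
  | k κ =>
    cases κ with
    | b0 q => exact Or.inl (by simpa [T1] using h)
    | b1 q => exact Or.inl (by simpa [T1] using h)
    | b2 q => exact Or.inl (by simpa [T1] using h)
    | b3 q => exact Or.inl (by simpa [T1] using h)
    | b4 q => exact Or.inl (by simpa [T1] using h)
    | t0 q => exact Or.inl (by simpa [T1] using h)
    | t1 q => exact Or.inl (by simpa [T1] using h)
    | t2 q => exact Or.inl (by simpa [T1] using h)
    | a0 q => exact Or.inr (Or.inr ⟨_, _, rfl, rfl, by simpa [T1] using h⟩)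
    | a1 q => exact Or.inr (Or.inr ⟨_, _, rfl, rfl, by simpa [T1] using h⟩)
    | s0 q => exact Or.inr (Or.inr ⟨_, _, rfl, rfl, by simpa [T1] using h⟩)
    | s1 q => exact Or.inr (Or.inr ⟨_, _, rfl, rfl, by simpa [T1] using h⟩)
    | s2 q => exact Or.inr (Or.inr ⟨_, _, rfl, rfl, by simpa [T1] using h⟩)
    | u q => exact Or.inr (Or.inr ⟨_, _, rfl, rfl, by simpa [T1] using h⟩)
  | st x =>
    cases x with
    | A0 => exact absurd h (by simp [T1])
    | E => exact absurd h (by simp [T1])
    | A1 => exact Or.inl (by simpa [T1] using h)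
    | A2 => exact Or.inl (by simpa [T1] using h)
    | D => exact Or.inl (by simpa [T1] using h)
    | e => exact Or.inl (by simpa [T1] using h)
    | B0 => exact Or.inr (Or.inl ⟨_, _, rfl, rfl, by simpa [T1] using h⟩)
    | B1 => exact Or.inr (Or.inl ⟨_, _, rfl, rfl, by simpa [T1] using h⟩)
    | B2 => exact Or.inr (Or.inl ⟨_, _, rfl, rfl, by simpa [T1] using h⟩)
    | B3 => exact Or.inr (Or.inl ⟨_, _, rfl, rfl, by simpa [T1] using h⟩)

private theorem Br2_one_here (o : Obj Q) : fl .here (one o) = {o} := by
  unfold one
  rw [fl_singleton]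
  simp

private theorem Br2_one_out (o : Obj Q) : fl .out (one o) = 0 := by
  unfold one
  rw [fl_singleton]
  simp

private theorem Br2_rep_here (n : ℕ) (o : Obj Q) :
    fl .here (replicate n (o, Target.here)) = replicate n o := by
  induction n with
  | zero => simp
  | succ n ih => rw [replicate_succ, replicate_succ, fl_cons, ih]; simp

private theorem Br2_rep_out (n : ℕ) (o : Obj Q) :
    fl .out (replicate n (o, Target.here)) = 0 := by
  induction n with
  | zero => simp
  | succ n ih => rw [replicate_succ, fl_cons, ih]; simp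

private theorem Br2_T2 {acts : Q → List (Act Q)} {o : Obj Q} {v : Out (Obj Q)}
    (h : v ∈ T2 acts o) :
    (∃ y w, o = .st y ∧ s2 y = some w ∧ fl .here v = w.map .st ∧ card (fl .out v) = 0) ∨
      (∃ κ κ' w, o = .k κ ∧ k2 acts κ κ' w (card (fl .out v)) ∧
        fl .here v = w.map .st + kms κ') := by
  have key : ∀ (κ κ1 : K Q), v = one (.k κ1) → k2 acts κ (some κ1) 0 0 → o = .k κ →
      (∃ κ κ' w, o = .k κ ∧ k2 acts κ κ' w (card (fl .out v)) ∧
        fl .here v = w.map .st + kms κ') := by
    intro κ κ1 hv hk ho
    refine ⟨κ, some κ1, 0, ho, ?_, ?_⟩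
    · rw [hv, Br2_one_out, card_zero]; exact hk
    · rw [hv, Br2_one_here]; simp [kms]
  have key2 : ∀ (y y' : S), v = one (.st y') → s2 y = some {y'} → o = .st y →
      (∃ y w, o = .st y ∧ s2 y = some w ∧ fl .here v = w.map .st ∧ card (fl .out v) = 0) := by
    intro y y' hv hk ho
    refine ⟨y, {y'}, ho, hk, ?_, ?_⟩
    · rw [hv, Br2_one_here]; simp
    · rw [hv, Br2_one_out, card_zero]
  cases o with
  | c1 => exact absurd h (by simp [T2])
  | c2 => exact absurd h (by simp [T2])
  | trap => exact absurd h (by simp [T2])
  | out => exact absurd h (by simp [T2])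
  | st x =>
    left
    cases x with
    | A0 => exact key2 _ _ (by simpa [T2] using h) rfl rfl
    | A1 => exact key2 _ _ (by simpa [T2] using h) rfl rfl
    | A2 => exact key2 _ _ (by simpa [T2] using h) rfl rfl
    | D => exact key2 _ _ (by simpa [T2] using h) rfl rfl
    | E => exact key2 _ _ (by simpa [T2] using h) rfl rfl
    | e =>
      have hv : v = 0 := by simpa [T2] using h
      exact ⟨_, _, rfl, rfl, by rw [hv]; simp, by rw [hv]; simp⟩
    | B0 => exact absurd h (by simp [T2])
    | B1 => exact absurd h (by simp [T2])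
    | B2 => exact absurd h (by simp [T2])
    | B3 => exact absurd h (by simp [T2])
  | k κ =>
    right
    cases κ with
    | b0 q => exact key _ _ (by simpa [T2] using h) (k2.b0 q) rfl
    | b1 q => exact key _ _ (by simpa [T2] using h) (k2.b1 q) rfl
    | b2 q => exact key _ _ (by simpa [T2] using h) (k2.b2 q) rfl
    | b3 q => exact key _ _ (by simpa [T2] using h) (k2.b3 q) rfl
    | t0 q => exact key _ _ (by simpa [T2] using h) (k2.t0 q) rfl
    | t1 q => exact key _ _ (by simpa [T2] using h) (k2.t1 q) rfl
    | t2 q => exact key _ _ (by simpa [T2] using h) (k2.t2 q) rfl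
    | a0 q => exact absurd h (by simp [T2])
    | a1 q => exact absurd h (by simp [T2])
    | s0 q => exact absurd h (by simp [T2])
    | s1 q => exact absurd h (by simp [T2])
    | s2 q => exact absurd h (by simp [T2])
    | u q => exact absurd h (by simp [T2])
    | b4 q =>
      obtain ⟨α, hα, rfl⟩ : ∃ α ∈ acts q, v = actOut α := h
      cases α with
      | goto o l =>
        have e1 : card (fl .out (actOut (Act.goto o l))) = if o then 1 else 0 := by
          unfold actOut
          rw [fl_add, Br2_one_out, add_zero]
          cases o <;> simp [fl_singleton]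
        refine ⟨_, some (.b0 l), 0, rfl, ?_, ?_⟩
        · rw [e1]; exact k2.goto q o l hα
        · unfold actOut
          rw [fl_add, Br2_one_here]
          cases o <;> simp [fl_singleton, kms]
      | win m l =>
        have e1 : card (fl .out (actOut (Act.win m l))) = 0 := by
          unfold actOut
          rw [fl_add, Br2_one_out, add_zero, Br2_rep_out, card_zero]
        refine ⟨_, some (.a0 l), replicate m .A0, rfl, ?_, ?_⟩
        · rw [e1]; exact k2.win q m l hα
        · unfold actOut
          rw [fl_add, Br2_one_here, Br2_rep_here, map_replicate]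
          rfl
      | pipe m l =>
        have e1 : card (fl .out (actOut (Act.pipe m l))) = 0 := by
          unfold actOut
          rw [fl_add, Br2_one_out, add_zero, Br2_rep_out, card_zero]
        refine ⟨_, some (.s0 l), replicate m .A0, rfl, ?_, ?_⟩
        · rw [e1]; exact k2.pipe q m l hα
        · unfold actOut
          rw [fl_add, Br2_one_here, Br2_rep_here, map_replicate]
          rfl
      | stop =>
        refine ⟨_, none, 0, rfl, ?_, ?_⟩
        · show k2 acts _ _ _ (card (fl .out (0 : Out (Obj Q))))
          rw [fl_zero, card_zero]; exact k2.stop q hα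
        · show fl .here (0 : Out (Obj Q)) = _
          rw [fl_zero]; simp [kms]

private theorem Br2_T1k (κ : K Q) : T1 (.k κ) ≠ (∅ : Set (Out (Obj Q))) := by
  intro h
  cases κ <;> simp [T1] at h

private theorem Br2_T1s {z : S} (h : T1 (.st z) = (∅ : Set (Out (Obj Q)))) : calm z := by
  cases z <;> first | (simp [T1] at h; done) | (simp [calm])

private theorem Br2_T2s {acts : Q → List (Act Q)} {z : S}
    (h : T2 acts (.st z) = (∅ : Set (Out (Obj Q)))) : s2 z = none := by
  cases z <;> first | (simp [T2] at h; done) | rfl

private theorem Br2_T2k {acts : Q → List (Act Q)} (hne : ∀ q, acts q ≠ []) {κ : K Q}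
    (h : T2 acts (.k κ) = (∅ : Set (Out (Obj Q)))) : k1 κ ≠ none := by
  cases κ with
  | b4 q =>
    exfalso
    obtain ⟨α, hα⟩ := List.exists_mem_of_ne_nil _ (hne q)
    have : actOut α ∈ (T2 acts (.k (.b4 q)) : Set (Out (Obj Q))) := ⟨α, hα, rfl⟩
    rw [h] at this
    exact this
  | b0 q => exact absurd h (by simp [T2])
  | b1 q => exact absurd h (by simp [T2])
  | b2 q => exact absurd h (by simp [T2])
  | b3 q => exact absurd h (by simp [T2])
  | t0 q => exact absurd h (by simp [T2])
  | t1 q => exact absurd h (by simp [T2])
  | t2 q => exact absurd h (by simp [T2])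
  | a0 q => simp [k1]
  | a1 q => simp [k1]
  | s0 q => simp [k1]
  | s1 q => simp [k1]
  | s2 q => simp [k1]
  | u q => simp [k1]

private theorem Br2_calm_s2 {z : S} (h : calm z) : s2 z ≠ none := by
  rcases h with rfl | rfl <;> simp [s2]

/-- the stock part -/
private def gS : Obj Q → Option S
  | .st x => some x
  | _ => none

/-- the control part -/
private def gK : Obj Q → Option (K Q)
  | .k κ => some κ
  | _ => none

private theorem Br2_gS_st (y : S) (T : Multiset (Obj Q)) :
    (Obj.st y ::ₘ T).filterMap gS = y ::ₘ T.filterMap gS :=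
  filterMap_cons_some gS (Obj.st y) T rfl

private theorem Br2_gS_k (κ : K Q) (T : Multiset (Obj Q)) :
    (Obj.k κ ::ₘ T).filterMap gS = T.filterMap gS :=
  filterMap_cons_none (f := gS) (Obj.k κ) T rfl

private theorem Br2_gK_st (y : S) (T : Multiset (Obj Q)) :
    (Obj.st y ::ₘ T).filterMap gK = T.filterMap gK :=
  filterMap_cons_none (f := gK) (Obj.st y) T rfl

private theorem Br2_gK_k (κ : K Q) (T : Multiset (Obj Q)) :
    (Obj.k κ ::ₘ T).filterMap gK = κ ::ₘ T.filterMap gK :=
  filterMap_cons_some gK (Obj.k κ) T rfl

private theorem Br2_gS_map (Y : Multiset S) :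
    (Y.map (Obj.st : S → Obj Q)).filterMap gS = Y := by
  induction Y using Multiset.induction_on with
  | empty => simp
  | cons y Y ih => rw [map_cons, Br2_gS_st, ih]

private theorem Br2_gK_map (Y : Multiset S) :
    (Y.map (Obj.st : S → Obj Q)).filterMap gK = 0 := by
  induction Y using Multiset.induction_on with
  | empty => simp
  | cons y Y ih => rw [map_cons, Br2_gK_st, ih]

private theorem Br2_gS (c : Cf Q) : (ms c).filterMap gS = c.2 := by
  obtain ⟨κo, Y⟩ := c
  cases κo with
  | none =>
    show ((0 : Multiset (Obj Q)) + Y.map Obj.st).filterMap gS = Y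
    rw [zero_add, Br2_gS_map]
  | some κ =>
    show (({Obj.k κ} : Multiset (Obj Q)) + Y.map Obj.st).filterMap gS = Y
    rw [singleton_add, Br2_gS_k, Br2_gS_map]

private theorem Br2_gK_none (Y : Multiset S) :
    (ms ((none, Y) : Cf Q)).filterMap gK = 0 := by
  show ((0 : Multiset (Obj Q)) + Y.map Obj.st).filterMap gK = 0
  rw [zero_add, Br2_gK_map]

private theorem Br2_gK_some (κ : K Q) (Y : Multiset S) :
    (ms (some κ, Y)).filterMap gK = {κ} := by
  show (({Obj.k κ} : Multiset (Obj Q)) + Y.map Obj.st).filterMap gK = {κ}
  rw [singleton_add, Br2_gK_k, Br2_gK_map]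
  rfl

private theorem Br2_memS {c : Cf Q} {x : S} (h : Obj.st x ∈ ms c) : x ∈ c.2 := by
  rw [← Br2_gS c, mem_filterMap]
  exact ⟨_, h, rfl⟩

private theorem Br2_memK {κo : Option (K Q)} {Y : Multiset S} {κ : K Q}
    (h : Obj.k κ ∈ ms (κo, Y)) : κo = some κ := by
  have h1 : κ ∈ (ms (κo, Y)).filterMap gK := by
    rw [mem_filterMap]
    exact ⟨_, h, rfl⟩
  cases κo with
  | none => rw [Br2_gK_none] at h1; simp at h1
  | some κ' => rw [Br2_gK_some] at h1; simp at h1; rw [h1]

private theorem Br2_mem_st {κo : Option (K Q)} {Z : Multiset S} {z : S} (hz : z ∈ Z) :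
    Obj.st z ∈ kms κo + Z.map (Obj.st : S → Obj Q) :=
  mem_add.2 (Or.inr (mem_map_of_mem _ hz))

private theorem Br2_mem_k {κ : K Q} {Z : Multiset S} :
    Obj.k κ ∈ kms (some κ) + Z.map (Obj.st : S → Obj Q) :=
  mem_add.2 (Or.inl (by simp [kms]))

private theorem Br2_cons (κo : Option (K Q)) (x : S) (Z : Multiset S) :
    ms (κo, x ::ₘ Z) = {Obj.st x} + (kms κo + Z.map .st) := by
  show kms κo + (x ::ₘ Z).map .st = _
  rw [map_cons, ← singleton_add (Obj.st x)]
  abel

private theorem Br2_ctl (κ : K Q) (Z : Multiset S) :
    ms (some κ, Z) = {Obj.k κ} + Z.map .st := rfl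

theorem ls_cases {acts : Q → List (Act Q)} (hne : ∀ q, acts q ≠ []) {c : Cf Q}
    {X' : Multiset (Obj Q)} {j : ℕ} (h : LS acts (ms c) X' j) : Obj.trap ∈ X' ∨ (∃ c', CStep acts c c' j ∧ X' = ms c') ∨
      (c = (none, 0) ∧ X' = 0 ∧ j = 0) := by
  obtain ⟨a, b, hm, hX', hj⟩ := h
  obtain ⟨κo, Y⟩ := c
  obtain ⟨val1, val2, hle, max1, max2⟩ := hm
  rcases a with _ | ⟨o1, v1⟩
  · -- the first catalyst is idle
    have hm1 := max1 rfl
    rcases b with _ | ⟨o2, v2⟩
    · -- both idle
      have hm2 := max2 rfl
      simp only [used_none, tsub_zero] at hm1 hm2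
      have hκ : κo = none := by
        cases κo with
        | none => rfl
        | some κ => exact absurd (hm1 _ Br2_mem_k) (Br2_T1k κ)
      have hY : Y = 0 := by
        rw [eq_zero_iff_forall_notMem]
        intro z hz
        exact Br2_calm_s2 (Br2_T1s (hm1 _ (Br2_mem_st hz))) (Br2_T2s (hm2 _ (Br2_mem_st hz)))
      subst hκ hY
      refine Or.inr (Or.inr ⟨rfl, ?_, ?_⟩)
      · rw [hX']; simp [ms, kms]
      · rw [hj]; simp
    · have hv2 := val2 _ _ rfl
      have hmem : o2 ∈ ms (κo, Y) := by
        apply mem_of_le hle
        simp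
      rcases Br2_T2 hv2 with ⟨y, w, rfl, hs, hh, ho⟩ | ⟨κ, κ', w, rfl, hk, hh⟩
      · obtain ⟨Z, rfl⟩ := exists_cons_of_mem (Br2_memS hmem)
        have e : ms (κo, y ::ₘ Z) - {Obj.st y} = kms κo + Z.map .st := by
          rw [Br2_cons, add_tsub_cancel_left]
        simp only [used_some, e] at hm1
        have hκ : κo = none := by
          cases κo with
          | none => rfl
          | some κ => exact absurd (hm1 _ Br2_mem_k) (Br2_T1k κ)
        subst hκ
        refine Or.inr (Or.inl ⟨(none, w + Z), ?_, ?_⟩)
        · have : j = 0 := by rw [hj, prods_none, prods_some, zero_add, ho]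
          rw [this]
          exact CStep.is hs fun z hz => Br2_T1s (hm1 _ (Br2_mem_st hz))
        · rw [hX', used_none, used_some, zero_add, e, prods_none, prods_some, zero_add, hh]
          show kms none + Z.map .st + w.map .st = kms none + (w + Z).map .st
          rw [Multiset.map_add]; abel
      · have hκ := Br2_memK hmem
        subst hκ
        have e : ms (some κ, Y) - {Obj.k κ} = Y.map .st := by
          rw [Br2_ctl, add_tsub_cancel_left]
        simp only [used_some, e] at hm1
        refine Or.inr (Or.inl ⟨(κ', w + Y), ?_, ?_⟩)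
        · have : j = card (fl .out v2) := by rw [hj, prods_none, prods_some, zero_add]
          rw [this]
          exact CStep.ik hk fun z hz => Br2_T1s (hm1 _ (mem_map_of_mem _ hz))
        · rw [hX', used_none, used_some, zero_add, e, prods_none, prods_some, zero_add, hh]
          show Y.map .st + (w.map .st + kms κ') = kms κ' + (w + Y).map .st
          rw [Multiset.map_add]; abel
  · have hv1 := val1 _ _ rfl
    have hmem1 : o1 ∈ ms (κo, Y) := by
      apply mem_of_le hle
      simp
    rcases Br2_T1 hv1 with rfl | ⟨x, x', rfl, hs1, rfl⟩ | ⟨κ, κ', rfl, hk1, rfl⟩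
    · left
      rw [hX', prods_some, fl_add, Br2_one_here]
      simp
    · -- the first catalyst works on the stock
      rcases b with _ | ⟨o2, v2⟩
      · have hm2 := max2 rfl
        obtain ⟨Z, rfl⟩ := exists_cons_of_mem (Br2_memS hmem1)
        have e : ms (κo, x ::ₘ Z) - {Obj.st x} = kms κo + Z.map .st := by
          rw [Br2_cons, add_tsub_cancel_left]
        simp only [used_some, e] at hm2
        refine Or.inr (Or.inl ⟨(κo, x' ::ₘ Z), ?_, ?_⟩)
        · have : j = 0 := by
            rw [hj, prods_none, prods_some, add_zero, Br2_one_out, card_zero]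
          rw [this]
          refine CStep.si hs1 (fun z hz => Br2_T2s (hm2 _ (Br2_mem_st hz))) ?_
          intro κ hκ
          subst hκ
          exact Br2_T2k hne (hm2 _ Br2_mem_k)
        · rw [hX', used_none, used_some, add_zero, e, prods_none, prods_some, add_zero,
            Br2_one_here, Br2_cons]
          abel
      · have hv2 := val2 _ _ rfl
        have hmem2 : o2 ∈ ms (κo, Y) := by
          apply mem_of_le hle
          simp
        rcases Br2_T2 hv2 with ⟨y, w, rfl, hs, hh, ho⟩ | ⟨κ, κ', w, rfl, hk, hh⟩
        · have hle2 : ({x} + {y} : Multiset S) ≤ Y := by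
            have := filterMap_le_filterMap gS hle
            rw [Br2_gS] at this
            simp only [used_some, singleton_add, Br2_gS_st] at this
            have h0 : filterMap gS ({Obj.st y} : Multiset (Obj Q)) = {y} := by
              rw [← cons_zero, Br2_gS_st]; simp
            rw [h0] at this
            exact this
          obtain ⟨Z, hZ⟩ := Multiset.le_iff_exists_add.1 hle2
          have hY : Y = x ::ₘ y ::ₘ Z := by
            rw [hZ, ← singleton_add x, ← singleton_add y]; abel
          subst hY
          have e : ms (κo, x ::ₘ y ::ₘ Z) = ({Obj.st x} + {Obj.st y}) + (kms κo + Z.map .st) := by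
            rw [Br2_cons, map_cons, ← singleton_add (Obj.st y)]
            abel
          refine Or.inr (Or.inl ⟨(κo, x' ::ₘ (w + Z)), ?_, ?_⟩)
          · have : j = 0 := by
              rw [hj, prods_some, prods_some, fl_add, Br2_one_out, zero_add, ho]
            rw [this]
            exact CStep.ss hs1 hs
          · rw [hX', used_some, used_some, e, add_tsub_cancel_left, prods_some, prods_some,
              fl_add, Br2_one_here, hh, Br2_cons, Multiset.map_add]
            abel
        · have hκ := Br2_memK hmem2
          subst hκ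
          obtain ⟨Z, rfl⟩ := exists_cons_of_mem (Br2_memS hmem1)
          have e : ms (some κ, x ::ₘ Z) = ({Obj.st x} + {Obj.k κ}) + Z.map .st := by
            rw [Br2_cons]
            show {Obj.st x} + ({Obj.k κ} + Z.map .st) = _
            abel
          refine Or.inr (Or.inl ⟨(κ', x' ::ₘ (w + Z)), ?_, ?_⟩)
          · have : j = card (fl .out v2) := by
              rw [hj, prods_some, prods_some, fl_add, Br2_one_out, zero_add]
            rw [this]
            exact CStep.sk hs1 hk
          · rw [hX', used_some, used_some, e, add_tsub_cancel_left, prods_some, prods_some,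
              fl_add, Br2_one_here, hh, Br2_cons, Multiset.map_add]
            abel
    · -- the first catalyst works on the control object
      have hκ := Br2_memK hmem1
      subst hκ
      rcases b with _ | ⟨o2, v2⟩
      · have hm2 := max2 rfl
        have e : ms (some κ, Y) - {Obj.k κ} = Y.map .st := by
          rw [Br2_ctl, add_tsub_cancel_left]
        simp only [used_some, e] at hm2
        refine Or.inr (Or.inl ⟨(some κ', Y), ?_, ?_⟩)
        · have : j = 0 := by
            rw [hj, prods_none, prods_some, add_zero, Br2_one_out, card_zero]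
          rw [this]
          exact CStep.ki hk1 fun z hz => Br2_T2s (hm2 _ (mem_map_of_mem _ hz))
        · rw [hX', used_none, used_some, add_zero, e, prods_none, prods_some, add_zero,
            Br2_one_here, Br2_ctl]
          abel
      · have hv2 := val2 _ _ rfl
        have hmem2 : o2 ∈ ms (some κ, Y) := by
          apply mem_of_le hle
          simp
        rcases Br2_T2 hv2 with ⟨y, w, rfl, hs, hh, ho⟩ | ⟨κ2, κ2', w, rfl, hk, hh⟩
        · obtain ⟨Z, rfl⟩ := exists_cons_of_mem (Br2_memS hmem2)
          have e : ms (some κ, y ::ₘ Z) = ({Obj.k κ} + {Obj.st y}) + Z.map .st := by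
            rw [Br2_cons]
            show {Obj.st y} + ({Obj.k κ} + Z.map .st) = _
            abel
          refine Or.inr (Or.inl ⟨(some κ', w + Z), ?_, ?_⟩)
          · have : j = 0 := by
              rw [hj, prods_some, prods_some, fl_add, Br2_one_out, zero_add, ho]
            rw [this]
            exact CStep.ks hk1 hs
          · rw [hX', used_some, used_some, e, add_tsub_cancel_left, prods_some, prods_some,
              fl_add, Br2_one_here, hh, Br2_ctl, Multiset.map_add]
            abel
        · exfalso
          have := filterMap_le_filterMap gK hle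
          rw [Br2_gK_some] at this
          simp only [used_some, singleton_add, Br2_gK_k] at this
          have h0 : filterMap gK ({Obj.k κ2} : Multiset (Obj Q)) = {κ2} := by
            rw [← cons_zero, Br2_gK_k]; simp
          rw [h0] at this
          have h3 := card_le_card this
          simp at h3

end Pool.Agent.H96.PC
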