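import Pool.Agent.H96.PC.Late

/-!
The first block of the control object while the first catalyst is still busy.
-/

namespace Pool.Agent.H96.PC

open Multiset

variable {Q : Type}

/-- Objects that witness that the first catalyst has just been busy with the stock. -/
def bd (z : S) : Prop := z = .B0 ∨ z = .B1 ∨ z = .B2 ∨ z = .B3 ∨ z = .D

/-- The bounds in the first block. -/
inductive FB : K Q → ℤ → Prop
  | b0 (q) : FB (.b0 q) 1
  | b1 (q) : FB (.b1 q) 0
  | b2 (q) : FB (.b2 q) (-1)
  | b3 (q) : FB (.b3 q) (-2)
  | b4 (q) : FB (.b4 q) (-3)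

theorem bd_s1 {x x' : S} (h : s1 x = some x') : bd x' := by
  cases x <;> simp only [s1, Option.some.injEq, reduceCtorEq] at h <;> subst h <;> simp [bd]

theorem bd_not_calm {z : S} (h : bd z) : ¬ calm z := by
  rcases h with rfl | rfl | rfl | rfl | rfl <;> simp [calm]

theorem first_block (acts : Q → List (Act Q)) : ∀ (k : ℕ) (κ : K Q) (m : ℤ) (Y : Multiset S)
    (n : ℕ), FB κ m → Lam Y ≤ m → (∃ z ∈ Y, bd z) → ¬ Acc acts k (some κ, Y) n := by
  intro k
  induction k with
  | zero =>
    rintro κ m Y n _ _ _ ⟨h, _⟩
    cases h
  | succ k ih =>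
    rintro κ m Y n hF hL ⟨z, hz, hzb⟩ ⟨c', j, n', hs, hacc, _⟩
    have hk1 : k1 κ = none := by cases hF <;> rfl
    generalize hc : ((some κ, Y) : Cf Q) = c at hs
    cases hs with
    | ss hx hy =>
      injection hc with h1 h2
      subst h1 h2
      simp only [Lam_cons] at hL
      have := lam_s1 hx
      have := Lam_s2_le hy
      exact ih κ m _ n' hF (by simp only [Lam_cons, Lam_add]; omega)
        ⟨_, mem_cons_self _ _, bd_s1 hx⟩ hacc
    | sk hx hk =>
      injection hc with h1 h2
      injection h1 with h1
      subst h1 h2
      simp only [Lam_cons] at hL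
      have h3 := lam_s1 hx
      have h4 := Lam_k2 hk
      cases hF <;> cases hk
      all_goals first
        | exact ih _ _ _ n' (by constructor) (by simp only [Lam_cons, Lam_add]; omega)
            ⟨_, mem_cons_self _ _, bd_s1 hx⟩ hacc
        | exact late acts k _ _ n' (by simp only [Lam_cons, Lam_add, cl]; omega) hacc
    | ks hk _ =>
      injection hc with h1 h2
      injection h1 with h1
      subst h1
      rw [hk1] at hk
      cases hk
    | si _ _ hκ =>
      injection hc with h1 h2
      exact absurd hk1 (hκ κ h1.symm)
    | ki hk _ =>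
      injection hc with h1 h2
      injection h1 with h1
      subst h1
      rw [hk1] at hk
      cases hk
    | is _ _ => injection hc with h1 h2; cases h1
    | ik _ hZ =>
      injection hc with h1 h2
      subst h2
      exact bd_not_calm hzb (hZ z hz)

end Pool.Agent.H96.PC
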