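import Pool.Agent.H75.PSys.Defs

/-!
The families of sets generated by purely catalytic P systems, when the catalysts are counted with
their multiplicities in the whole system.
-/

namespace Pool.Agent.H96.PC

open Multiset Pool.Agent.H75.PSys

/-- The total number of catalysts in the initial configuration. -/
def numCat (Γ : PSystem) : ℕ := ∑ m, card ((Γ.w m).filter (fun o => o ∈ Γ.C))

/-- The family `NP_m(pcat_r)` when the catalysts are counted with their multiplicities: at most `m`
membranes, at most `r` catalysts in the whole system, and no rule produces a catalyst. -/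
def NPs (m r : ℕ) : Set (Set ℕ) :=
  {A | ∃ Γ : PSystem, Fintype.card Γ.M ≤ m ∧ numCat Γ ≤ r ∧ Γ.C.card ≤ r ∧
    (∀ i, ∀ ρ ∈ Γ.rules i, ∀ p ∈ ρ.prod, p.1 ∉ Γ.C) ∧ Γ.N = A}

/-- The same family with any number of membranes. -/
def NPsStar (r : ℕ) : Set (Set ℕ) :=
  {A | ∃ Γ : PSystem, numCat Γ ≤ r ∧ Γ.C.card ≤ r ∧
    (∀ i, ∀ ρ ∈ Γ.rules i, ∀ p ∈ ρ.prod, p.1 ∉ Γ.C) ∧ Γ.N = A}

end Pool.Agent.H96.PC
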