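import Pool.Agent.H96.PC.Block

/-!
Completeness of the pipeline.
-/

namespace Pool.Agent.H96.PC

open Multiset

variable {Q : Type}

/-- One step without output. -/
theorem Acc.step {acts : Q → List (Act Q)} {k : ℕ} {c c' : Cf Q} {n : ℕ}
    (h : CStep acts c c' 0) (h' : Acc acts k c' n) : Acc acts (k + 1) c n :=
  ⟨c', 0, n, h, h', (zero_add n).symm⟩

/-- Reading and processing one more written unit. -/
theorem pipe_load (acts : Q → List (Act Q)) (q : Q) (n : ℕ) : ∀ (j i k : ℕ),
    Acc acts k (some (.t0 q), .B0 ::ₘ replicate (i + j) .B3) n →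
    ∃ k', Acc acts k' (some (.t0 q), .B0 ::ₘ (replicate i .B3 + replicate j .A0)) n := by
  intro j
  induction j with
  | zero =>
    intro i k h
    exact ⟨k, by simpa using h⟩
  | succ j ih =>
    intro i k h
    obtain ⟨k', h'⟩ := ih (i + 1) k (by rwa [show i + 1 + j = i + (j + 1) by omega])
    refine ⟨k' + 1 + 1 + 1, ?_⟩
    have e0 : (.B0 ::ₘ (replicate i .B3 + replicate (j + 1) .A0) : Multiset S) =
        .B0 ::ₘ .A0 ::ₘ (replicate i .B3 + replicate j .A0) := by
      rw [replicate_succ, add_cons]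
    rw [e0]
    refine Acc.step (CStep.ss (x' := .B1) (v := {.A1}) rfl rfl) ?_
    rw [singleton_add]
    refine Acc.step (CStep.ss (x' := .B2) (v := {.A2}) rfl rfl) ?_
    rw [singleton_add]
    refine Acc.step (CStep.ss (x' := .B3) (v := {.B0}) rfl rfl) ?_
    have e1 : (.B3 ::ₘ ({.B0} + (replicate i .B3 + replicate j .A0)) : Multiset S) =
        .B0 ::ₘ (replicate (i + 1) .B3 + replicate j .A0) := by
      rw [singleton_add, cons_swap, replicate_succ, cons_add]
    rw [e1]
    exact h'

/-- Unloading. -/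
theorem pipe_unload (acts : Q → List (Act Q)) (q : Q) (n : ℕ) : ∀ (i j k : ℕ),
    Acc acts k (some (.u q), .D ::ₘ replicate (i + j) .E) n →
    ∃ k', Acc acts k' (some (.u q), .D ::ₘ (replicate i .B3 + replicate j .E)) n := by
  intro i
  induction i with
  | zero =>
    intro j k h
    exact ⟨k, by simpa using h⟩
  | succ i ih =>
    intro j k h
    obtain ⟨k', h'⟩ := ih (j + 1) k (by rwa [show i + (j + 1) = i + 1 + j by omega])
    refine ⟨k' + 1, ?_⟩
    have e0 : (.D ::ₘ (replicate (i + 1) .B3 + replicate j .E) : Multiset S) =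
        .B3 ::ₘ .D ::ₘ (replicate i .B3 + replicate j .E) := by
      rw [replicate_succ, cons_add, cons_swap]
    rw [e0]
    refine Acc.step (CStep.ss (x' := .D) (v := {.E}) rfl rfl) ?_
    have e1 : (.D ::ₘ ({.E} + (replicate i .B3 + replicate j .E)) : Multiset S) =
        .D ::ₘ (replicate i .B3 + replicate (j + 1) .E) := by
      rw [singleton_add, replicate_succ, add_cons]
    rw [e1]
    exact h'

theorem pipe_compl (acts : Q → List (Act Q)) {k x : ℕ} {q : Q} {n : ℕ} (hx : 0 < x)
    (h : Acc acts k (some (.b0 q), AE 0 x) n) : ∃ k', Acc acts k' (some (.s0 q), AE x 0) n := by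
  obtain ⟨x, rfl⟩ : ∃ x', x = x' + 1 := ⟨x - 1, by omega⟩
  have h1 : Acc acts (k + 1) (some (.u q), .D ::ₘ replicate (x + 0) .E) n := by
    refine Acc.step (CStep.ks (κ' := .b0 q) (v := {.E}) rfl rfl) ?_
    have e : ({.E} + replicate (x + 0) .E : Multiset S) = AE 0 (x + 1) := by
      rw [AE, replicate_zero, zero_add, add_zero, replicate_succ, singleton_add]
    rw [e]
    exact h
  obtain ⟨k1, h2⟩ := pipe_unload acts q n x 0 _ h1
  have h3 : Acc acts (k1 + 1) (some (.u q), replicate (x + 1) .B3) n := by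
    rw [replicate_succ]
    refine Acc.step (CStep.si (x' := .D) rfl ?_ ?_) ?_
    · intro z hz
      rw [eq_of_mem_replicate hz]
      rfl
    · intro c hc
      cases hc
      exact fun h => by cases h
    · simpa using h2
  have h4 : Acc acts (k1 + 1 + 1 + 1 + 1) (some (.t0 q), .B0 ::ₘ replicate (0 + x) .B3) n := by
    rw [zero_add]
    refine Acc.step (CStep.sk (x' := .B1) rfl (k2.t0 q)) ?_
    rw [zero_add]
    refine Acc.step (CStep.sk (x' := .B2) rfl (k2.t1 q)) ?_
    rw [zero_add]
    refine Acc.step (CStep.sk (x' := .B3) rfl (k2.t2 q)) ?_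
    rw [zero_add, ← replicate_succ]
    exact h3
  obtain ⟨k2', h5⟩ := pipe_load acts q n x 0 _ h4
  refine ⟨k2' + 1 + 1 + 1, ?_⟩
  have e : (AE (x + 1) 0 : Multiset S) = .A0 ::ₘ replicate x .A0 := by
    rw [AE, replicate_zero, add_zero, replicate_succ]
  rw [e]
  refine Acc.step (CStep.ks (κ' := .s1 q) (v := {.A1}) rfl rfl) ?_
  rw [singleton_add]
  refine Acc.step (CStep.ks (κ' := .s2 q) (v := {.A2}) rfl rfl) ?_
  rw [singleton_add]
  refine Acc.step (CStep.ks (κ' := .t0 q) (v := {.B0}) rfl rfl) ?_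
  rw [singleton_add]
  simpa using h5

end Pool.Agent.H96.PC
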