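import Pool.Agent.H96.PC.Pot

/-!
Soundness of the window.
-/

namespace Pool.Agent.H96.PC

open Multiset

variable {Q : Type}

/-- The steps when the first catalyst can only work on the control object. -/
private theorem WinSound_inv {acts : Q → List (Act Q)} {κ κ1 : K Q} {Y : Multiset S} {c' : Cf Q}
    {j : ℕ} (hk : k1 κ = some κ1) (hk2 : ∀ κ' w j, ¬ k2 acts κ κ' w j)
    (hY : ∀ z ∈ Y, s1 z = none) (hne : ∃ z ∈ Y, s2 z ≠ none)
    (h : CStep acts (some κ, Y) c' j) :
    ∃ y v Z, Y = y ::ₘ Z ∧ s2 y = some v ∧ c' = (some κ1, v + Z) ∧ j = 0 := by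
  generalize hc : ((some κ, Y) : Cf Q) = c at h
  cases h with
  | @ss κ' x x' y v Z h1 h2 =>
    obtain ⟨-, rfl⟩ := Prod.mk.inj hc
    have := hY x (mem_cons_self _ _)
    rw [h1] at this
    cases this
  | @sk κ' κ'' x x' w Z j h1 h2 =>
    obtain ⟨-, rfl⟩ := Prod.mk.inj hc
    have := hY x (mem_cons_self _ _)
    rw [h1] at this
    cases this
  | @ks κ' κ'' y v Z h1 h2 =>
    obtain ⟨h3, rfl⟩ := Prod.mk.inj hc
    obtain rfl := Option.some.inj h3
    rw [hk] at h1
    obtain rfl := Option.some.inj h1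
    exact ⟨y, v, Z, rfl, h2, rfl, rfl⟩
  | @si κ' x x' Z h1 h2 h3 =>
    obtain ⟨-, rfl⟩ := Prod.mk.inj hc
    have := hY x (mem_cons_self _ _)
    rw [h1] at this
    cases this
  | @ki κ' κ'' Z h1 h2 =>
    obtain ⟨-, rfl⟩ := Prod.mk.inj hc
    obtain ⟨z, hz, hz2⟩ := hne
    exact absurd (h2 z hz) hz2
  | @is y v Z h1 h2 =>
    obtain ⟨h3, -⟩ := Prod.mk.inj hc
    cases h3
  | @ik κ' κ'' w Z j h1 h2 =>
    obtain ⟨h3, -⟩ := Prod.mk.inj hc
    obtain rfl := Option.some.inj h3
    exact absurd h1 (hk2 _ _ _)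

/-- No computation from `b0` with a stock that is not calm. -/
private theorem WinSound_stuck {acts : Q → List (Act Q)} {q : Q} {Y : Multiset S} {k n : ℕ}
    (hY : ∀ z ∈ Y, s1 z = none) (hne : ∃ z ∈ Y, ¬ calm z) :
    ¬ Acc acts k (some (.b0 q), Y) n := by
  intro h
  cases k with
  | zero =>
    obtain ⟨h1, -⟩ := h
    cases (Prod.mk.inj h1).1
  | succ k =>
    obtain ⟨c', j, n', h, -, -⟩ := h
    generalize hc : ((some (.b0 q), Y) : Cf Q) = c at h
    cases h with
    | @ss κ' x x' y v Z h1 h2 =>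
      obtain ⟨-, rfl⟩ := Prod.mk.inj hc
      have := hY x (mem_cons_self _ _)
      rw [h1] at this
      cases this
    | @sk κ' κ'' x x' w Z j h1 h2 =>
      obtain ⟨-, rfl⟩ := Prod.mk.inj hc
      have := hY x (mem_cons_self _ _)
      rw [h1] at this
      cases this
    | @ks κ' κ'' y v Z h1 h2 =>
      obtain ⟨h3, rfl⟩ := Prod.mk.inj hc
      obtain rfl := Option.some.inj h3
      cases h1
    | @si κ' x x' Z h1 h2 h3 =>
      obtain ⟨-, rfl⟩ := Prod.mk.inj hc
      have := hY x (mem_cons_self _ _)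
      rw [h1] at this
      cases this
    | @ki κ' κ'' Z h1 h2 =>
      obtain ⟨h3, rfl⟩ := Prod.mk.inj hc
      obtain rfl := Option.some.inj h3
      cases h1
    | @is y v Z h1 h2 =>
      obtain ⟨h3, -⟩ := Prod.mk.inj hc
      cases h3
    | @ik κ' κ'' w Z j h1 h2 =>
      obtain ⟨-, rfl⟩ := Prod.mk.inj hc
      obtain ⟨z, hz, hz2⟩ := hne
      exact hz2 (h2 z hz)

private theorem WinSound_AE {x y : ℕ} {z : S} (h : z ∈ AE x y) : z = .A0 ∨ z = .E := by
  rcases mem_add.mp h with h | h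
  · exact Or.inl (eq_of_mem_replicate h)
  · exact Or.inr (eq_of_mem_replicate h)

private theorem WinSound_k2a {acts : Q → List (Act Q)} (q : Q) :
    ∀ κ' w j, ¬ k2 acts (.a0 q) κ' w j := by
  rintro κ' w j ⟨⟩

private theorem WinSound_k2b {acts : Q → List (Act Q)} (q : Q) :
    ∀ κ' w j, ¬ k2 acts (.a1 q) κ' w j := by
  rintro κ' w j ⟨⟩

theorem win_sound (acts : Q → List (Act Q)) {k x y : ℕ} {q : Q} {n : ℕ} (hx : 0 < x)
    (h : Acc acts k (some (.a0 q), AE x y) n) :
    ∃ y' k', y = y' + 1 ∧ k = k' + 2 ∧ Acc acts k' (some (.b0 q), AE x y') n := by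
  cases k with
  | zero =>
    obtain ⟨h1, -⟩ := h
    cases (Prod.mk.inj h1).1
  | succ k =>
  obtain ⟨c', j, n', hs, h, rfl⟩ := h
  have hA : S.A0 ∈ AE x y := mem_add.mpr (Or.inl (mem_replicate.mpr ⟨by omega, rfl⟩))
  obtain ⟨a, v, Z, hZ, ha, rfl, rfl⟩ := WinSound_inv (κ1 := .a1 q) rfl (WinSound_k2a q)
    (fun z hz => by rcases WinSound_AE hz with rfl | rfl <;> rfl) ⟨.A0, hA, by simp [s2]⟩ hs
  have hZc : ∀ z ∈ Z, z = .A0 ∨ z = .E := fun z hz =>
    WinSound_AE (x := x) (y := y) (by rw [hZ]; exact mem_cons_of_mem hz)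
  have haa : a = .A0 ∨ a = .E := WinSound_AE (x := x) (y := y) (by rw [hZ]; exact mem_cons_self _ _)
  cases k with
  | zero =>
    obtain ⟨h1, -⟩ := h
    cases (Prod.mk.inj h1).1
  | succ k =>
  obtain ⟨c', j, n'', hs, h, rfl⟩ := h
  rcases haa with rfl | rfl
  · -- the wrong choice
    obtain rfl : v = {.A1} := (Option.some.inj ha).symm
    exfalso
    obtain ⟨b, v, Z', hZ', hb, rfl, rfl⟩ := WinSound_inv (κ1 := .b0 q) rfl (WinSound_k2b q)
      (fun z hz => by
        rcases mem_add.mp hz with hz | hz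
        · rw [mem_singleton.mp hz]; rfl
        · rcases hZc z hz with rfl | rfl <;> rfl)
      ⟨.A1, mem_add.mpr (Or.inl (mem_singleton_self _)), by simp [s2]⟩ hs
    rw [singleton_add] at hZ'
    rcases cons_eq_cons.mp hZ' with ⟨rfl, rfl⟩ | ⟨hne, W, rfl, rfl⟩
    · obtain rfl : v = {.A2} := (Option.some.inj hb).symm
      refine WinSound_stuck ?_ ⟨.A2, mem_add.mpr (Or.inl (mem_singleton_self _)), by simp [calm]⟩ h
      intro z hz
      rcases mem_add.mp hz with hz | hz
      · rw [mem_singleton.mp hz]; rfl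
      · rcases hZc z hz with rfl | rfl <;> rfl
    · have hbb := hZc b (mem_cons_self _ _)
      refine WinSound_stuck ?_ ⟨.A1, mem_add.mpr (Or.inr (mem_cons_self _ _)), by simp [calm]⟩ h
      intro z hz
      rcases mem_add.mp hz with hz | hz
      · rcases hbb with rfl | rfl
        · obtain rfl : v = {.A1} := (Option.some.inj hb).symm
          rw [mem_singleton.mp hz]; rfl
        · obtain rfl : v = {.e} := (Option.some.inj hb).symm
          rw [mem_singleton.mp hz]; rfl
      · rcases mem_cons.mp hz with rfl | hz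
        · rfl
        · rcases hZc z (mem_cons_of_mem hz) with rfl | rfl <;> rfl
  · obtain rfl : v = {.e} := (Option.some.inj ha).symm
    obtain ⟨b, v, Z', hZ', hb, rfl, rfl⟩ := WinSound_inv (κ1 := .b0 q) rfl (WinSound_k2b q)
      (fun z hz => by
        rcases mem_add.mp hz with hz | hz
        · rw [mem_singleton.mp hz]; rfl
        · rcases hZc z hz with rfl | rfl <;> rfl)
      ⟨.e, mem_add.mpr (Or.inl (mem_singleton_self _)), by simp [s2]⟩ hs
    rw [singleton_add] at hZ'
    rcases cons_eq_cons.mp hZ' with ⟨rfl, rfl⟩ | ⟨hne, W, rfl, rfl⟩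
    · obtain rfl : v = 0 := (Option.some.inj hb).symm
      cases y with
      | zero =>
        exfalso
        have hE : S.E ∈ AE x 0 := by rw [hZ]; exact mem_cons_self _ _
        rcases mem_add.mp hE with hE | hE
        · cases eq_of_mem_replicate hE
        · simp at hE
      | succ y' =>
        have hZ2 : Z = AE x y' := by
          have h3 : (S.E ::ₘ Z) = S.E ::ₘ AE x y' := by
            rw [← hZ]
            simp [AE, replicate_succ, add_cons]
          exact (cons_inj_right _).mp h3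
        subst hZ2
        refine ⟨y', k, rfl, rfl, ?_⟩
        simpa using h
    · exfalso
      have hbb := hZc b (mem_cons_self _ _)
      refine WinSound_stuck ?_ ⟨.e, mem_add.mpr (Or.inr (mem_cons_self _ _)), by simp [calm]⟩ h
      intro z hz
      rcases mem_add.mp hz with hz | hz
      · rcases hbb with rfl | rfl
        · obtain rfl : v = {.A1} := (Option.some.inj hb).symm
          rw [mem_singleton.mp hz]; rfl
        · obtain rfl : v = {.e} := (Option.some.inj hb).symm
          rw [mem_singleton.mp hz]; rfl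
      · rcases mem_cons.mp hz with rfl | hz
        · rfl
        · rcases hZc z (mem_cons_of_mem hz) with rfl | rfl <;> rfl

end Pool.Agent.H96.PC
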