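import Pool.Agent.H96.PC.PipeSound
import Pool.Agent.H96.PC.WinSound
import Pool.Agent.H96.PC.PipeCompl

/-!
The P system simulates the unary transducer machine.
-/

namespace Pool.Agent.H96.PC

open Multiset

variable {Q : Type}

private theorem Main_AE (m x y : ℕ) : replicate m S.A0 + AE x y = AE (x + m) y := by
  unfold AE
  rw [← add_assoc, ← replicate_add, Nat.add_comm m x]

theorem sound {acts : Q → List (Act Q)} {pos : Q → Bool} (hG : Good acts pos) :
    ∀ (k : ℕ) (q : Q) (x y n : ℕ), (pos q = true → 0 < x) →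
    Acc acts k (some (.b0 q), AE x y) n → ∃ k', UAcc acts (fun _ => True) k' q x y n := by
  intro k
  induction k using Nat.strong_induction_on with
  | _ k ih =>
    intro q x y n hx h
    obtain ⟨k', κ', w, j, n', hk, h2, hacc, hn⟩ := block_sound acts (AE_calm x y) h
    subst hn
    cases h2 with
    | goto _ o l hm =>
      rw [zero_add] at hacc
      obtain ⟨k'', hu⟩ := ih k' (by omega) l x y n' (fun hl => hx (hG.goto q o l hm hl)) hacc
      exact ⟨k'' + 1, Or.inl ⟨o, l, n', hm, rfl, hu⟩⟩
    | win _ m l hm =>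
      rw [Main_AE] at hacc
      have hxm : 0 < x + m := by
        rcases hG.win q m l hm with h1 | h1
        · have := hx h1
          omega
        · omega
      obtain ⟨y', k1, hy, hk1, hacc'⟩ := win_sound acts hxm hacc
      obtain ⟨k'', hu⟩ := ih k1 (by omega) l (x + m) y' n' (fun _ => hxm) hacc'
      rw [zero_add]
      exact ⟨k'' + 1, Or.inr (Or.inl ⟨m, l, y', hm, hy, hu⟩)⟩
    | pipe _ m l hm =>
      rw [Main_AE] at hacc
      obtain ⟨h1, hl⟩ := hG.pipe q m l hm
      have hxm : 0 < x + m := by
        rcases h1 with h1 | h1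
        · have := hx h1
          omega
        · omega
      obtain ⟨hy, k1, hk1, hacc'⟩ := pipe_sound acts hxm hacc
      obtain ⟨k'', hu⟩ := ih k1 (by omega) l 0 (x + m) n' (fun h => by simp [hl] at h) hacc'
      rw [zero_add]
      exact ⟨k'' + 1, Or.inr (Or.inr ⟨m, l, hm, hy, hu⟩)⟩
    | stop _ hm =>
      have hn' := acc_none acts _ _ _ hacc
      exact ⟨0, hm, trivial, by omega⟩

theorem complete {acts : Q → List (Act Q)} {pos : Q → Bool} (hG : Good acts pos) :
    ∀ (k : ℕ) (q : Q) (x y n : ℕ), (pos q = true → 0 < x) →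
    UAcc acts (fun x => x = 0) k q x y n → ∃ k', Acc acts k' (some (.b0 q), AE x y) n := by
  intro k
  induction k with
  | zero =>
    rintro q x y n _ ⟨hm, hx, hn⟩
    subst hx hn
    obtain ⟨k1, h1⟩ := stop_compl acts y
    have h := block_compl acts (q := q) (AE_calm 0 y) (k2.stop q hm)
      (by rw [zero_add]; exact h1)
    exact ⟨_, h⟩
  | succ k ih =>
    rintro q x y n hx (⟨o, l, n', hm, hn, hu⟩ | ⟨m, l, y', hm, hy, hu⟩ | ⟨m, l, hm, hy, hu⟩)
    · obtain ⟨k1, h1⟩ := ih l x y n' (fun hl => hx (hG.goto q o l hm hl)) hu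
      have h := block_compl acts (q := q) (AE_calm x y) (k2.goto q o l hm)
        (by rw [zero_add]; exact h1)
      rw [hn]
      exact ⟨_, h⟩
    · have hxm : 0 < x + m := by
        rcases hG.win q m l hm with h1 | h1
        · have := hx h1
          omega
        · omega
      obtain ⟨k1, h1⟩ := ih l (x + m) y' n (fun _ => hxm) hu
      have h := block_compl acts (q := q) (AE_calm x y) (k2.win q m l hm)
        (by rw [Main_AE, hy]; exact win_compl acts h1)
      rw [zero_add] at h
      exact ⟨_, h⟩
    · obtain ⟨h0, hl⟩ := hG.pipe q m l hm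
      have hxm : 0 < x + m := by
        rcases h0 with h1 | h1
        · have := hx h1
          omega
        · omega
      obtain ⟨k1, h1⟩ := ih l 0 (x + m) n (fun h => by simp [hl] at h) hu
      obtain ⟨k2', h2'⟩ := pipe_compl acts hxm h1
      have h := block_compl acts (q := q) (AE_calm x y) (k2.pipe q m l hm)
        (by rw [Main_AE, hy]; exact h2')
      rw [zero_add] at h
      exact ⟨_, h⟩

end Pool.Agent.H96.PC
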