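import Pool.Agent.H96.PC.StepIff
import Pool.Agent.H96.PC.Bridge2

/-!
The set generated by the P system in terms of trap-free computations.
-/

namespace Pool.Agent.H96.PC

open Multiset Pool.Agent.H75.PSys

variable {Q : Type} [Fintype Q] [DecidableEq Q]

omit [Fintype Q] [DecidableEq Q] in
theorem ms_none_zero : ms ((none, 0) : Cf Q) = 0 := by
  simp [ms, kms]

theorem init_eq (acts : Q → List (Act Q)) (q0 : Q) :
    (sys acts q0).init = conf acts q0 (ms (some (.b0 q0), {.E})) 0 := rfl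

theorem result_eq (acts : Q → List (Act Q)) (q0 : Q) (c : (sys acts q0).Conf) :
    (sys acts q0).result c = c.env := rfl

theorem halting_no_trap (acts : Q → List (Act Q)) (q0 : Q) {X : Multiset (Obj Q)} {n : ℕ}
    (h : (sys acts q0).Halting (conf acts q0 X n)) : Obj.trap ∉ X := by
  intro ht
  have h1 := ((halting_iff acts q0).1 h _ ht).1
  have h2 : one (Obj.trap : Obj Q) ∈ T1 (Obj.trap : Obj Q) := by
    change one (Obj.trap : Obj Q) ∈ ({one Obj.trap} : Set (Out (Obj Q)))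
    exact Set.mem_singleton _
  rw [h1] at h2
  exact h2

theorem sound_aux (acts : Q → List (Act Q)) (hne : ∀ q, acts q ≠ []) (q0 : Q)
    {a c : (sys acts q0).Conf} (hr : Relation.ReflTransGen (sys acts q0).Step a c)
    (hh : (sys acts q0).Halting c) :
    ∀ (X : Multiset (Obj Q)) (n : ℕ), a = conf acts q0 X n → (Obj.c1 ∉ X ∧ Obj.c2 ∉ X) →
      (Obj.trap ∉ X) ∧ (∀ C : Cf Q, X = ms C → ∃ k n', Acc acts k C n' ∧ c.env = n + n') := by
  induction hr using Relation.ReflTransGen.head_induction_on with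
  | refl =>
    rintro X n rfl hX
    refine ⟨halting_no_trap acts q0 hh, ?_⟩
    rintro C rfl
    refine ⟨0, 0, ⟨?_, rfl⟩, rfl⟩
    exact (halt_ms (acts := acts) C).1 ((halting_iff acts q0).1 hh)
  | head hab hbc ih =>
    rintro X n rfl hX
    obtain ⟨X', j, hLS, hb⟩ := (step_iff acts q0 hX _).1 hab
    obtain ⟨ih1, ih2⟩ := ih X' (n + j) hb (LS.clean hX hLS)
    refine ⟨fun ht => ih1 (ls_trap ht hLS), ?_⟩
    rintro C rfl
    rcases ls_cases hne hLS with h | ⟨C', hC, hX'⟩ | ⟨hC, hX', hj⟩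
    · exact absurd h ih1
    · obtain ⟨k, n', hA, he⟩ := ih2 C' hX'
      exact ⟨k + 1, j + n', ⟨C', j, n', hC, hA, rfl⟩, by rw [he]; omega⟩
    · obtain ⟨k, n', hA, he⟩ := ih2 C (by rw [hX', hC, ms_none_zero])
      exact ⟨k, n', hA, by rw [he, hj]; omega⟩

theorem compl_aux (acts : Q → List (Act Q)) (q0 : Q) :
    ∀ (k : ℕ) (C : Cf Q) (n m : ℕ), Acc acts k C n →
      ∃ c, Relation.ReflTransGen (sys acts q0).Step (conf acts q0 (ms C) m) c ∧
        (sys acts q0).Halting c ∧ c.env = m + n := by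
  intro k
  induction k with
  | zero =>
    rintro C n m ⟨hC, hn⟩
    refine ⟨conf acts q0 (ms C) m, Relation.ReflTransGen.refl, ?_, ?_⟩
    · exact (halting_iff acts q0).2 ((halt_ms C).2 hC)
    · rw [hn]
      rfl
  | succ k ih =>
    rintro C n m ⟨C', j, n', hC, hA, hn⟩
    obtain ⟨c, hr, hh, he⟩ := ih C' n' (m + j) hA
    refine ⟨c, Relation.ReflTransGen.head ?_ hr, hh, by rw [he, hn]; omega⟩
    refine (step_iff acts q0 ⟨(ms_clean C).1, (ms_clean C).2.1⟩ _).2 ⟨ms C', j, ?_, rfl⟩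
    exact ls_of_cstep hC

theorem N_sys (acts : Q → List (Act Q)) (hne : ∀ q, acts q ≠ []) (q0 : Q) :
    (sys acts q0).N = {n | ∃ k, Acc acts k (some (.b0 q0), {.E}) n} := by
  ext n
  constructor
  · rintro ⟨c, hr, hh, hn⟩
    rw [init_eq] at hr
    obtain ⟨_, h2⟩ := sound_aux acts hne q0 hr hh _ _ rfl
      ⟨(ms_clean _).1, (ms_clean _).2.1⟩
    obtain ⟨k, n', hA, he⟩ := h2 _ rfl
    rw [result_eq] at hn
    refine ⟨k, ?_⟩
    have : n = n' := by omega
    rw [this]
    exact hA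
  · rintro ⟨k, hA⟩
    obtain ⟨c, hr, hh, he⟩ := compl_aux acts q0 k _ n 0 hA
    refine ⟨c, ?_, hh, ?_⟩
    · rw [init_eq]
      exact hr
    · rw [result_eq, he]
      omega

end Pool.Agent.H96.PC
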