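import Pool.Agent.H96.PC.VDefs

/-!
Completeness of the simulation.
-/

namespace Pool.Agent.H96.PC

variable {Q : Type} {P : ℕ}

theorem mu_compl {mp : Q → MI Q} (F : ℕ → Prop) (m : Fin (P + 1)) (l : Q) (n : ℕ) :
    ∀ (y x k : ℕ),
    UAcc (vacts mp : V Q P → List (Act (V Q P))) F k (.loc l) 0 (x + m.val * y) n →
    ∃ k', UAcc (vacts mp : V Q P → List (Act (V Q P))) F k' (.mu m l) x y n := by
  intro y
  induction y with
  | zero =>
    intro x k h
    exact ⟨k + 1, Or.inr (Or.inr ⟨0, .loc l, by simp [vacts], rfl, by simpa using h⟩)⟩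
  | succ y ih =>
    intro x k h
    obtain ⟨k', hk'⟩ := ih (x + m.val) k (by
      have e : x + m.val + m.val * y = x + m.val * (y + 1) := by ring
      rw [e]
      exact h)
    exact ⟨k' + 1, Or.inr (Or.inl ⟨m.val, .mu m l, y, by simp [vacts], rfl, hk'⟩)⟩

theorem dv_compl {mp : Q → MI Q} (F : ℕ → Prop) (m : Fin (P + 1)) (l : Q) (n : ℕ) :
    ∀ (y x r k : ℕ) (j : Fin (P + 1)), 0 < j.val → j.val ≤ m.val → y + j.val = (r + 1) * m.val →
    UAcc (vacts mp : V Q P → List (Act (V Q P))) F k (.loc l) 0 (x + r) n →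
    ∃ k', UAcc (vacts mp : V Q P → List (Act (V Q P))) F k' (.dv m j l) x y n := by
  intro y
  induction y with
  | zero =>
    intro x r k j hj hjm he h
    have hr : r = 0 := by
      by_contra hr
      have : 2 * m.val ≤ (r + 1) * m.val := Nat.mul_le_mul_right _ (by omega)
      omega
    subst hr
    have hjm' : ¬ j.val < m.val := by omega
    exact ⟨k + 1, Or.inr (Or.inr ⟨0, .loc l, by simp [vacts, hjm'], rfl, by simpa using h⟩)⟩
  | succ y ih =>
    intro x r k j hj hjm he h
    have hmP : m.val ≤ P := Nat.lt_succ_iff.mp m.isLt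
    by_cases hlt : j.val < m.val
    · obtain ⟨k', hk'⟩ := ih x r k (fn P (j.val + 1)) (by rw [fn_val (by omega)]; omega)
        (by rw [fn_val (by omega)]; omega) (by rw [fn_val (by omega)]; omega) h
      exact ⟨k' + 1, Or.inr (Or.inl ⟨0, .dv m (fn P (j.val + 1)) l, y, by simp [vacts, hlt], rfl,
        hk'⟩)⟩
    · have hjm' : j.val = m.val := by omega
      obtain ⟨r', rfl⟩ : ∃ r', r = r' + 1 := by
        rcases r with _ | r
        · exfalso
          rw [hjm'] at he
          simp at he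
        · exact ⟨r, rfl⟩
      have he' : y + 1 = (r' + 1) * m.val := by
        have e : (r' + 1 + 1) * m.val = (r' + 1) * m.val + m.val := by ring
        omega
      have h1 : (fn P 1).val = 1 := fn_val (by omega)
      obtain ⟨k', hk'⟩ := ih (x + 1) r' k (fn P 1) (by rw [h1]; exact Nat.one_pos)
        (by rw [h1]; omega) (by rw [h1]; exact he') (by
          have e : x + 1 + r' = x + (r' + 1) := by ring
          rw [e]
          exact h)
      exact ⟨k' + 1, Or.inr (Or.inl ⟨1, .dv m (fn P 1) l, y, by simp [vacts, hlt], rfl, hk'⟩)⟩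

theorem nd_compl {mp : Q → MI Q} (F : ℕ → Prop) (m : Fin (P + 1)) (l : Q) (n : ℕ) :
    ∀ (y x k : ℕ) (j : Fin (P + 1)), 0 < j.val → j.val ≤ m.val → ¬ m.val ∣ y + j.val →
    UAcc (vacts mp : V Q P → List (Act (V Q P))) F k (.loc l) 0 (x + y) n →
    ∃ k', UAcc (vacts mp : V Q P → List (Act (V Q P))) F k' (.nd m j l) x y n := by
  intro y
  induction y with
  | zero =>
    intro x k j hj hjm he h
    have hlt : j.val < m.val := by
      rcases Nat.lt_or_ge j.val m.val with h | h
      · exact h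
      · exfalso
        apply he
        have : j.val = m.val := by omega
        rw [this, Nat.zero_add]
    exact ⟨k + 1, Or.inr (Or.inr ⟨0, .loc l, by simp [vacts, hlt], rfl, by simpa using h⟩)⟩
  | succ y ih =>
    intro x k j hj hjm he h
    have hmP : m.val ≤ P := Nat.lt_succ_iff.mp m.isLt
    have e1 : x + 1 + y = x + (y + 1) := by ring
    by_cases hlt : j.val < m.val
    · have h1 : (fn P (j.val + 1)).val = j.val + 1 := fn_val (by omega)
      obtain ⟨k', hk'⟩ := ih (x + 1) k (fn P (j.val + 1)) (by rw [h1]; omega)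
        (by rw [h1]; omega) (by
          rw [h1]
          have e : y + (j.val + 1) = y + 1 + j.val := by ring
          rw [e]
          exact he) (by rw [e1]; exact h)
      exact ⟨k' + 1, Or.inr (Or.inl ⟨1, .nd m (fn P (j.val + 1)) l, y, by simp [vacts, hlt], rfl,
        hk'⟩)⟩
    · have hjm' : j.val = m.val := by omega
      have h1 : (fn P 1).val = 1 := fn_val (by omega)
      obtain ⟨k', hk'⟩ := ih (x + 1) k (fn P 1) (by rw [h1]; exact Nat.one_pos)
        (by rw [h1]; omega) (by
          rw [h1]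
          intro hd
          apply he
          rw [hjm']
          exact Dvd.dvd.add hd (dvd_refl _)) (by rw [e1]; exact h)
      exact ⟨k' + 1, Or.inr (Or.inl ⟨1, .nd m (fn P 1) l, y, by simp [vacts, hlt], rfl, hk'⟩)⟩

theorem v_compl {mp : Q → MI Q} (h1 : ∀ q m l, mp q = .mul m l → 0 < m ∧ m ≤ P)
    (h2 : ∀ q m l0 l1, mp q = .div m l0 l1 → 0 < m ∧ m ≤ P) :
    ∀ (k : ℕ) (q : Q) (M n : ℕ), 0 < M → MAcc mp k q M n →
    ∃ k', UAcc (vacts mp : V Q P → List (Act (V Q P))) (fun x => x = 0) k' (.loc q) 0 M n := by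
  intro k
  induction k with
  | zero =>
    intro q M n hM h
    obtain ⟨hq, rfl⟩ := h
    exact ⟨0, by simp [vacts, hq], rfl, rfl⟩
  | succ k ih =>
    intro q M n hM h
    obtain ⟨M', rfl⟩ : ∃ M', M = M' + 1 := ⟨M - 1, by omega⟩
    cases hq : mp q with
    | goto l =>
      simp only [MAcc, hq] at h
      obtain ⟨k', hk'⟩ := ih l _ n hM h
      exact ⟨k' + 1, Or.inl ⟨false, .loc l, n, by simp [vacts, hq], by simp, hk'⟩⟩
    | mul m l =>
      simp only [MAcc, hq] at h
      obtain ⟨hm, hmP⟩ := h1 q m l hq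
      obtain ⟨k', hk'⟩ := ih l _ n (Nat.mul_pos hm hM) h
      have hv : (fn P m).val = m := fn_val hmP
      obtain ⟨k'', hk''⟩ := mu_compl (mp := mp) (fun x => x = 0) (fn P m) l n M' m k' (by
        rw [hv]
        have e : m + m * M' = m * (M' + 1) := by ring
        rw [e]
        exact hk')
      exact ⟨k'' + 1, Or.inr (Or.inl ⟨m, .mu (fn P m) l, M', by simp [vacts, hq], rfl,
        by simpa using hk''⟩)⟩
    | div m l0 l1 =>
      simp only [MAcc, hq] at h
      obtain ⟨hm, hmP⟩ := h2 q m l0 l1 hq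
      have hv : (fn P m).val = m := fn_val hmP
      have hv1 : (fn P 1).val = 1 := fn_val (by omega)
      split_ifs at h with hd
      · have hpos : 0 < (M' + 1) / m := Nat.div_pos (Nat.le_of_dvd (Nat.succ_pos _) hd) hm
        obtain ⟨k', hk'⟩ := ih l1 _ n hpos h
        obtain ⟨r, hr⟩ : ∃ r, (M' + 1) / m = r + 1 := ⟨(M' + 1) / m - 1, by omega⟩
        rw [hr] at hk'
        obtain ⟨k'', hk''⟩ := dv_compl (mp := mp) (fun x => x = 0) (fn P m) l1 n M' 1 r k'
          (fn P 1) (by rw [hv1]; exact Nat.one_pos) (by rw [hv1, hv]; exact hm) (by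
            rw [hv1, hv, ← hr, Nat.div_mul_cancel hd]) (by
            rw [Nat.add_comm 1 r]
            exact hk')
        exact ⟨k'' + 1, Or.inr (Or.inl ⟨1, .dv (fn P m) (fn P 1) l1, M', by simp [vacts, hq], rfl,
          by simpa using hk''⟩)⟩
      · obtain ⟨k', hk'⟩ := ih l0 _ n hM h
        obtain ⟨k'', hk''⟩ := nd_compl (mp := mp) (fun x => x = 0) (fn P m) l0 n M' 1 k'
          (fn P 1) (by rw [hv1]; exact Nat.one_pos) (by rw [hv1, hv]; exact hm) (by
            rw [hv1, hv]
            exact hd) (by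
            rw [Nat.add_comm 1 M']
            exact hk')
        exact ⟨k'' + 1, Or.inr (Or.inl ⟨1, .nd (fn P m) (fn P 1) l0, M', by simp [vacts, hq], rfl,
          by simpa using hk''⟩)⟩
    | emit l =>
      simp only [MAcc, hq] at h
      obtain ⟨n', rfl, h⟩ := h
      obtain ⟨k', hk'⟩ := ih l _ n' hM h
      exact ⟨k' + 1, Or.inl ⟨true, .loc l, n', by simp [vacts, hq], by simp [Nat.add_comm], hk'⟩⟩
    | fork l l' =>
      simp only [MAcc, hq] at h
      rcases h with h | h
      · obtain ⟨k', hk'⟩ := ih l _ n hM h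
        exact ⟨k' + 1, Or.inl ⟨false, .loc l, n, by simp [vacts, hq], by simp, hk'⟩⟩
      · obtain ⟨k', hk'⟩ := ih l' _ n hM h
        exact ⟨k' + 1, Or.inl ⟨false, .loc l', n, by simp [vacts, hq], by simp, hk'⟩⟩
    | halt =>
      simp only [MAcc, hq] at h

end Pool.Agent.H96.PC
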