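import Pool.Agent.H96.PC.VDefs

/-!
Soundness of the simulation.
-/

namespace Pool.Agent.H96.PC

variable {Q : Type} {P : ℕ}

theorem mu_sound {mp : Q → MI Q} (F : ℕ → Prop) : ∀ (k : ℕ) (m : Fin (P + 1)) (l : Q)
    (x y n : ℕ), UAcc (vacts mp : V Q P → List (Act (V Q P))) F k (.mu m l) x y n →
    ∃ k' < k, UAcc (vacts mp : V Q P → List (Act (V Q P))) F k' (.loc l) 0 (x + m.val * y) n := by
  intro k
  induction k with
  | zero =>
    intro m l x y n h
    exfalso
    have h1 := h.1
    simp [vacts] at h1
  | succ k ih =>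
    intro m l x y n h
    rcases h with ⟨o, l', n', hm, -, -⟩ | ⟨m', l', y', hm, rfl, h⟩ | ⟨m', l', hm, rfl, h⟩
    · exfalso
      simp [vacts] at hm
    · simp [vacts] at hm
      obtain ⟨rfl, rfl⟩ := hm
      obtain ⟨k', hk, h'⟩ := ih m l _ _ _ h
      refine ⟨k', by omega, ?_⟩
      have e : x + m.val * (y' + 1) = x + m.val + m.val * y' := by ring
      rw [e]
      exact h'
    · simp [vacts] at hm
      obtain ⟨rfl, rfl⟩ := hm
      exact ⟨k, by omega, by simpa using h⟩

theorem dv_sound {mp : Q → MI Q} (F : ℕ → Prop) : ∀ (k : ℕ) (m j : Fin (P + 1)) (l : Q)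
    (x y n : ℕ), 0 < j.val → j.val ≤ m.val →
    UAcc (vacts mp : V Q P → List (Act (V Q P))) F k (.dv m j l) x y n →
    ∃ r, y + j.val = (r + 1) * m.val ∧
    ∃ k' < k, UAcc (vacts mp : V Q P → List (Act (V Q P))) F k' (.loc l) 0 (x + r) n := by
  intro k
  induction k with
  | zero =>
    intro m j l x y n _ _ h
    exfalso
    have h1 := h.1
    rw [vacts] at h1
    split_ifs at h1 <;> simp at h1
  | succ k ih =>
    intro m j l x y n hj hjm h
    have hmP := m.2
    rcases h with ⟨o, l', n', hm, -, -⟩ | ⟨m', l', y', hm, rfl, h⟩ | ⟨m', l', hm, rfl, h⟩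
    · exfalso
      rw [vacts] at hm
      split_ifs at hm <;> simp at hm
    · rw [vacts] at hm
      split_ifs at hm with hlt
      · simp at hm
        obtain ⟨rfl, rfl⟩ := hm
        have hv : (fn P (j.val + 1)).val = j.val + 1 := fn_val (by omega)
        obtain ⟨r, hr, k', hk, h'⟩ := ih m (fn P (j.val + 1)) l _ _ _ (by omega) (by omega) h
        refine ⟨r, by omega, k', by omega, ?_⟩
        simpa using h'
      · simp at hm
        obtain ⟨rfl, rfl⟩ := hm
        have hv : (fn P 1).val = 1 := fn_val (by omega)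
        obtain ⟨r, hr, k', hk, h'⟩ := ih m (fn P 1) l _ _ _ (by omega) (by omega) h
        refine ⟨r + 1, ?_, k', by omega, ?_⟩
        · rw [hv] at hr
          have : j.val = m.val := by omega
          rw [this, hr]
          ring
        · have e : x + (r + 1) = x + 1 + r := by ring
          rw [e]
          exact h'
    · rw [vacts] at hm
      split_ifs at hm with hlt
      · simp at hm
      · simp at hm
        obtain ⟨rfl, rfl⟩ := hm
        refine ⟨0, by omega, k, by omega, ?_⟩
        simpa using h

theorem nd_sound {mp : Q → MI Q} (F : ℕ → Prop) : ∀ (k : ℕ) (m j : Fin (P + 1)) (l : Q)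
    (x y n : ℕ), 0 < j.val → j.val ≤ m.val →
    UAcc (vacts mp : V Q P → List (Act (V Q P))) F k (.nd m j l) x y n →
    ¬ m.val ∣ y + j.val ∧
    ∃ k' < k, UAcc (vacts mp : V Q P → List (Act (V Q P))) F k' (.loc l) 0 (x + y) n := by
  intro k
  induction k with
  | zero =>
    intro m j l x y n _ _ h
    exfalso
    have h1 := h.1
    rw [vacts] at h1
    split_ifs at h1 <;> simp at h1
  | succ k ih =>
    intro m j l x y n hj hjm h
    have hmP := m.2
    rcases h with ⟨o, l', n', hm, -, -⟩ | ⟨m', l', y', hm, rfl, h⟩ | ⟨m', l', hm, rfl, h⟩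
    · exfalso
      rw [vacts] at hm
      split_ifs at hm <;> simp at hm
    · rw [vacts] at hm
      split_ifs at hm with hlt
      · simp at hm
        obtain ⟨rfl, rfl⟩ := hm
        have hv : (fn P (j.val + 1)).val = j.val + 1 := fn_val (by omega)
        obtain ⟨hr, k', hk, h'⟩ := ih m (fn P (j.val + 1)) l _ _ _ (by omega) (by omega) h
        refine ⟨?_, k', by omega, ?_⟩
        · rw [hv] at hr
          have e : y' + 1 + j.val = y' + (j.val + 1) := by ring
          rw [e]
          exact hr
        · have e : x + (y' + 1) = x + 1 + y' := by ring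
          rw [e]
          exact h'
      · simp at hm
        obtain ⟨rfl, rfl⟩ := hm
        have hv : (fn P 1).val = 1 := fn_val (by omega)
        obtain ⟨hr, k', hk, h'⟩ := ih m (fn P 1) l _ _ _ (by omega) (by omega) h
        refine ⟨?_, k', by omega, ?_⟩
        · rw [hv] at hr
          have : j.val = m.val := by omega
          rw [this]
          intro hd
          exact hr ((Nat.dvd_add_left (dvd_refl m.val)).mp hd)
        · have e : x + (y' + 1) = x + 1 + y' := by ring
          rw [e]
          exact h'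
    · rw [vacts] at hm
      split_ifs at hm with hlt
      · simp at hm
        obtain ⟨rfl, rfl⟩ := hm
        refine ⟨?_, k, by omega, ?_⟩
        · intro hd
          rw [zero_add] at hd
          have := Nat.le_of_dvd hj hd
          omega
        · simpa using h
      · simp at hm

theorem v_sound {mp : Q → MI Q} (h1 : ∀ q m l, mp q = .mul m l → 0 < m ∧ m ≤ P)
    (h2 : ∀ q m l0 l1, mp q = .div m l0 l1 → 0 < m ∧ m ≤ P) (F : ℕ → Prop) :
    ∀ (k : ℕ) (q : Q) (M n : ℕ), 0 < M →
    UAcc (vacts mp : V Q P → List (Act (V Q P))) F k (.loc q) 0 M n → ∃ k', MAcc mp k' q M n := by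
  intro k
  induction k using Nat.strong_induction_on with
  | _ k ih =>
    intro q M n hM h
    cases k with
    | zero =>
      obtain ⟨hs, -, rfl⟩ := h
      refine ⟨0, ?_, rfl⟩
      cases hq : mp q <;> simp [vacts, hq] at hs ⊢
    | succ k =>
      cases hq : mp q with
      | goto l =>
        rcases h with ⟨o, l', n', hm, rfl, h⟩ | ⟨m', l', y', hm, rfl, h⟩ | ⟨m', l', hm, rfl, h⟩
        · simp [vacts, hq] at hm
          obtain ⟨rfl, rfl⟩ := hm
          obtain ⟨k', hk⟩ := ih k (by omega) l M n' hM h
          refine ⟨k' + 1, ?_⟩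
          simp only [MAcc, hq]
          simpa using hk
        · simp [vacts, hq] at hm
        · simp [vacts, hq] at hm
      | mul m l =>
        obtain ⟨hm0, hmP⟩ := h1 q m l hq
        rcases h with ⟨o, l', n', hm, rfl, h⟩ | ⟨m', l', y', hm, rfl, h⟩ | ⟨m', l', hm, rfl, h⟩
        · simp [vacts, hq] at hm
        · simp [vacts, hq] at hm
          obtain ⟨rfl, rfl⟩ := hm
          obtain ⟨k', hk, h'⟩ := mu_sound F _ _ _ _ _ _ h
          rw [fn_val hmP] at h'
          have e : 0 + m' + m' * y' = m' * (y' + 1) := by ring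
          rw [e] at h'
          obtain ⟨k'', hk''⟩ := ih k' (by omega) l _ n (by positivity) h'
          refine ⟨k'' + 1, ?_⟩
          simp only [MAcc, hq]
          exact hk''
        · simp [vacts, hq] at hm
      | div m l0 l1 =>
        obtain ⟨hm0, hmP⟩ := h2 q m l0 l1 hq
        have hv1 : (fn P 1).val = 1 := fn_val (by omega)
        have hvm : (fn P m).val = m := fn_val hmP
        rcases h with ⟨o, l', n', hm, rfl, h⟩ | ⟨m', l', y', hm, rfl, h⟩ | ⟨m', l', hm, rfl, h⟩
        · simp [vacts, hq] at hm
        · simp [vacts, hq] at hm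
          rcases hm with ⟨rfl, rfl⟩ | ⟨rfl, rfl⟩
          · obtain ⟨r, hr, k', hk, h'⟩ := dv_sound F _ _ _ _ _ _ _ (by omega) (by omega) h
            rw [hv1, hvm] at hr
            have e : 0 + 1 + r = r + 1 := by ring
            rw [e] at h'
            obtain ⟨k'', hk''⟩ := ih k' (by omega) l1 _ n (by omega) h'
            refine ⟨k'' + 1, ?_⟩
            simp only [MAcc, hq]
            have hdv : m ∣ y' + 1 := ⟨r + 1, by rw [hr]; ring⟩
            rw [if_pos hdv, hr, Nat.mul_div_cancel _ hm0]
            exact hk''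
          · obtain ⟨hr, k', hk, h'⟩ := nd_sound F _ _ _ _ _ _ _ (by omega) (by omega) h
            rw [hv1, hvm] at hr
            have e : 0 + 1 + y' = y' + 1 := by ring
            rw [e] at h'
            obtain ⟨k'', hk''⟩ := ih k' (by omega) l0 _ n (by omega) h'
            refine ⟨k'' + 1, ?_⟩
            simp only [MAcc, hq]
            rw [if_neg hr]
            exact hk''
        · simp [vacts, hq] at hm
      | emit l =>
        rcases h with ⟨o, l', n', hm, rfl, h⟩ | ⟨m', l', y', hm, rfl, h⟩ | ⟨m', l', hm, rfl, h⟩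
        · simp [vacts, hq] at hm
          obtain ⟨rfl, rfl⟩ := hm
          obtain ⟨k', hk⟩ := ih k (by omega) l M n' hM h
          refine ⟨k' + 1, ?_⟩
          simp only [MAcc, hq]
          exact ⟨n', by simp [add_comm], hk⟩
        · simp [vacts, hq] at hm
        · simp [vacts, hq] at hm
      | fork l l2 =>
        rcases h with ⟨o, l', n', hm, rfl, h⟩ | ⟨m', l', y', hm, rfl, h⟩ | ⟨m', l', hm, rfl, h⟩
        · simp [vacts, hq] at hm
          rcases hm with ⟨rfl, rfl⟩ | ⟨rfl, rfl⟩
          · obtain ⟨k', hk⟩ := ih k (by omega) l M n' hM h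
            refine ⟨k' + 1, ?_⟩
            simp only [MAcc, hq]
            left
            simpa using hk
          · obtain ⟨k', hk⟩ := ih k (by omega) l2 M n' hM h
            refine ⟨k' + 1, ?_⟩
            simp only [MAcc, hq]
            right
            simpa using hk
        · simp [vacts, hq] at hm
        · simp [vacts, hq] at hm
      | halt =>
        rcases h with ⟨o, l', n', hm, rfl, h⟩ | ⟨m', l', y', hm, rfl, h⟩ | ⟨m', l', hm, rfl, h⟩
        · simp [vacts, hq] at hm
        · simp [vacts, hq] at hm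
        · simp [vacts, hq] at hm

end Pool.Agent.H96.PC
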