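import Pool.Agent.H96.PC.Fam
import Pool.Agent.H96.PC.NSys
import Pool.Agent.H96.PC.Main
import Pool.Agent.H96.PC.VSound
import Pool.Agent.H96.PC.VCompl

/-!
Every recursively enumerable set of natural numbers is generated by a purely catalytic P system
with one membrane and one copy of each of two catalysts.
-/

namespace Pool.Agent.H96.PC

open Multiset Pool.Agent.H75.PSys

private theorem Final_numCat (Γ : PSystem) (i : Γ.M) (hi : ∀ m, m = i) (a b c d : Γ.O)
    (hw : Γ.w i = {a, b, c, d}) (ha : a ∈ Γ.C) (hb : b ∈ Γ.C) (hc : c ∉ Γ.C) (hd : d ∉ Γ.C) :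
    numCat Γ = 2 := by
  have e : numCat Γ = card ((Γ.w i).filter (fun o => o ∈ Γ.C)) := by
    unfold numCat
    exact Finset.sum_eq_single i (fun m _ hm => absurd (hi m) hm)
      (fun h => absurd (Finset.mem_univ i) h)
  rw [e, hw, Multiset.insert_eq_cons, Multiset.insert_eq_cons, Multiset.insert_eq_cons,
    filter_cons_of_pos _ ha, filter_cons_of_pos _ hb, filter_cons_of_neg _ hc,
    filter_singleton, if_neg hd]
  rfl

theorem exists_sys {A : Set ℕ} (hA : A ∈ NRE) :
    ∃ Γ : PSystem, Fintype.card Γ.M = 1 ∧ Γ.C.card = 2 ∧ (∀ c ∈ Γ.C, count c (Γ.w Γ.skin) = 1) ∧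
      numCat Γ = 2 ∧ (∀ i, ∀ ρ ∈ Γ.rules i, ∀ p ∈ ρ.prod, p.1 ∉ Γ.C) ∧ Γ.iout = none ∧
      Γ.N = A := by
  obtain ⟨Q, fQ, dQ, mp, q0, P, h1, h2, hA'⟩ := exists_mi (A := A) hA
  have hG : Good (vacts mp : V Q P → List (Act (V Q P))) vpos :=
    vgood fun q m l h => (h1 q m l h).1
  have h12 : (Obj.c1 : Obj (V Q P)) ≠ .c2 := by intro h; cases h
  have hE : ({.E} : Multiset S) = AE 0 1 := by
    unfold AE
    rw [replicate_zero, zero_add, replicate_one]
  refine ⟨sys (vacts mp : V Q P → List (Act (V Q P))) (.loc q0), rfl, ?_, ?_, ?_,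
    fun m ρ hρ => sys_no_catalyst _ _ m ρ hρ, rfl, ?_⟩
  · exact Finset.card_pair h12
  · have key : ∀ c : Obj (V Q P), c ∈ ({.c1, .c2} : Finset (Obj (V Q P))) →
        count c ({.c1, .c2, .k (.b0 (.loc q0)), .st .E} : Multiset (Obj (V Q P))) = 1 := by
      intro c hc
      rw [Finset.mem_insert, Finset.mem_singleton] at hc
      rcases hc with rfl | rfl <;> simp [Multiset.insert_eq_cons]
    exact key
  · refine Final_numCat (sys (vacts mp : V Q P → List (Act (V Q P))) (.loc q0)) () (fun _ => rfl)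
      (.c1 : Obj (V Q P)) (.c2 : Obj (V Q P)) (.k (.b0 (.loc q0)) : Obj (V Q P))
      (.st .E : Obj (V Q P)) rfl ?_ ?_ ?_ ?_
    · exact Finset.mem_insert_self (.c1 : Obj (V Q P)) _
    · exact Finset.mem_insert_of_mem (Finset.mem_singleton_self (.c2 : Obj (V Q P)))
    · intro h
      rcases Finset.mem_insert.1 h with h | h
      · cases h
      · cases Finset.mem_singleton.1 h
    · intro h
      rcases Finset.mem_insert.1 h with h | h
      · cases h
      · cases Finset.mem_singleton.1 h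
  · rw [N_sys _ (vacts_ne mp)]
    ext n
    change (∃ k, Acc (vacts mp : V Q P → List (Act (V Q P))) k
      (some (.b0 (.loc q0)), {.E}) n) ↔ n ∈ A
    rw [hA' n, hE]
    constructor
    · rintro ⟨k, hk⟩
      obtain ⟨k', hk'⟩ := sound hG k (.loc q0) 0 1 n (fun h => absurd h (by simp [vpos])) hk
      exact v_sound h1 h2 _ k' q0 1 n Nat.one_pos hk'
    · rintro ⟨k, hk⟩
      obtain ⟨k', hk'⟩ := v_compl h1 h2 k q0 1 n Nat.one_pos hk
      exact complete hG k' (.loc q0) 0 1 n (fun h => absurd h (by simp [vpos])) hk'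

end Pool.Agent.H96.PC
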