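import Pool.Agent.H96.PC.FB

/-!
The invariant of the pipeline.
-/

namespace Pool.Agent.H96.PC

open Multiset

variable {Q : Type}

/-- The invariant of the pipeline with bound `c`: no waste so far; or exactly one idle step of the
second catalyst, when nothing was to be read and everything written was being processed; or
potential lost. -/
def Inv (c : ℤ) (N y0 : ℕ) (Y : Multiset S) : Prop :=
  (Lam Y = c ∧ card Y = N ∧ S.e ∉ Y ∧ y0 ≤ count S.E Y) ∨
  (y0 = 0 ∧ Lam Y = c - 1 ∧ card Y = N ∧ S.e ∉ Y ∧ ∀ z ∈ Y, z ≠ .A0 ∧ z ≠ .A1 ∧ z ≠ .A2) ∨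
  Lam Y ≤ c - 2

theorem Inv.le {c : ℤ} {N y0 : ℕ} {Y : Multiset S} (h : Inv c N y0 Y) : Lam Y ≤ c := by
  rcases h with ⟨h, _⟩ | ⟨_, h, _⟩ | h <;> omega

/-- The product of the first catalyst. -/
theorem s1_prod {x x' : S} (hx : s1 x = some x') :
    x ≠ .E ∧ x' ≠ .e ∧ x' ≠ .E ∧ x' ≠ .A0 ∧ x' ≠ .A1 ∧ x' ≠ .A2 := by
  cases x <;> simp only [s1, Option.some.injEq, reduceCtorEq] at hx <;> subst hx <;> simp

/-- The product of the second catalyst. -/
theorem s2_prod {y : S} {v : Multiset S} (hy : s2 y = some v) : y = .e ∨ y = .E ∨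
    (y ≠ .E ∧ card v = 1 ∧ S.e ∉ v ∧ Lam v = lam y + 1 ∧
      (y ≠ .A0 ∧ y ≠ .A1 ∧ y ≠ .A2 → ∀ z ∈ v, z ≠ .A0 ∧ z ≠ .A1 ∧ z ≠ .A2)) := by
  cases y <;> simp only [s2, Option.some.injEq, reduceCtorEq] at hy <;> subst hy <;> simp [lam]

theorem s2_none {z : S} (hz : s2 z = none) : z ≠ .E ∧ z ≠ .A0 ∧ z ≠ .A1 ∧ z ≠ .A2 := by
  cases z <;> simp_all [s2]

/-- Both catalysts work on the stock. -/
theorem Inv.ss {c : ℤ} {N y0 : ℕ} {x x' y : S} {v Z : Multiset S} (hx : s1 x = some x')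
    (hy : s2 y = some v) (h : Inv c N y0 (x ::ₘ y ::ₘ Z)) : Inv c N y0 (x' ::ₘ (v + Z)) := by
  have h1 := lam_s1 hx
  have h2 := Lam_s2 hy
  have h3 := s1_prod hx
  unfold Inv at h ⊢
  simp only [Lam_cons, Lam_add, card_cons, card_add, mem_cons, mem_add, not_or, count_cons,
    count_add, forall_eq_or_imp] at h ⊢
  rcases s2_prod hy with rfl | rfl | ⟨h4, h5, h6, h7, h8⟩
  · rcases h with ⟨_, _, h, _⟩ | ⟨_, _, _, h, _⟩ | h
    · simp at h
    · simp at h
    · right; right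
      rcases h2 with ⟨_, h2⟩ | ⟨h2, _⟩
      · omega
      · cases h2
  · right; right
    rcases h2 with ⟨h2, _⟩ | ⟨_, rfl, h2⟩
    · exact absurd rfl h2
    · rcases h with ⟨h, _⟩ | ⟨_, h, _⟩ | h <;> omega
  · rcases h with ⟨ha, hb, hc, hd⟩ | ⟨ha, hb, hc, hd, he⟩ | h
    · left
      refine ⟨by omega, by omega, ⟨fun h => h3.2.1 h.symm, h6, hc.2.2⟩, ?_⟩
      rw [if_neg (fun h => h4 h.symm), if_neg (fun h => h3.1 h.symm)] at hd
      omega
    · right; left
      refine ⟨ha, by omega, by omega, ⟨fun h => h3.2.1 h.symm, h6, hd.2.2⟩, h3.2.2.2, ?_⟩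
      rintro z (hz | hz)
      · exact h8 he.2.1 z hz
      · exact he.2.2 z hz
    · right; right
      omega

/-- The first catalyst works on the stock, the second one on the control object. -/
theorem Inv.sk {c : ℤ} {N y0 : ℕ} {x x' : S} {Z : Multiset S} (hx : s1 x = some x')
    (h : Inv c N y0 (x ::ₘ Z)) : Inv (c - 1) N y0 (x' ::ₘ Z) := by
  have h1 := lam_s1 hx
  have h3 := s1_prod hx
  unfold Inv at h ⊢
  simp only [Lam_cons, card_cons, mem_cons, not_or, count_cons, forall_eq_or_imp] at h ⊢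
  rcases h with ⟨ha, hb, hc, hd⟩ | ⟨ha, hb, hc, hd, he⟩ | h
  · left
    refine ⟨by omega, hb, ⟨fun h => h3.2.1 h.symm, hc.2⟩, ?_⟩
    rw [if_neg (fun h => h3.1 h.symm)] at hd
    omega
  · right; left
    exact ⟨ha, by omega, hc, ⟨fun h => h3.2.1 h.symm, hd.2⟩, h3.2.2.2, he.2⟩
  · right; right
    omega

/-- The first catalyst works on the stock, the second one is idle. -/
theorem Inv.si {c : ℤ} {N y0 : ℕ} {x x' : S} {Z : Multiset S} (hx : s1 x = some x')
    (hZ : ∀ z ∈ Z, s2 z = none) (h : Inv c N y0 (x ::ₘ Z)) : Inv c N y0 (x' ::ₘ Z) := by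
  have h1 := lam_s1 hx
  have h3 := s1_prod hx
  unfold Inv at h ⊢
  simp only [Lam_cons, card_cons, mem_cons, not_or, count_cons, forall_eq_or_imp] at h ⊢
  rcases h with ⟨ha, hb, hc, hd⟩ | ⟨ha, hb, hc, hd, he⟩ | h
  · right; left
    have h5 : count S.E Z = 0 := count_eq_zero.2 fun hE => (s2_none (hZ _ hE)).1 rfl
    rw [if_neg (fun h => h3.1 h.symm), h5] at hd
    exact ⟨by omega, by omega, hb, ⟨fun h => h3.2.1 h.symm, hc.2⟩, h3.2.2.2,
      fun z hz => (s2_none (hZ z hz)).2⟩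
  · right; right
    omega
  · right; right
    omega

/-- The first catalyst works on the control object, the second one on the stock. -/
theorem Inv.ks {c : ℤ} {N y0 : ℕ} {y : S} {v Z : Multiset S}
    (hy : s2 y = some v) (h : Inv c N y0 (y ::ₘ Z)) : Inv (c + 1) N y0 (v + Z) := by
  have h2 := Lam_s2 hy
  unfold Inv at h ⊢
  simp only [Lam_cons, Lam_add, card_cons, card_add, mem_cons, mem_add, not_or, count_cons,
    count_add, forall_eq_or_imp] at h ⊢
  rcases s2_prod hy with rfl | rfl | ⟨h4, h5, h6, h7, h8⟩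
  · rcases h with ⟨_, _, h, _⟩ | ⟨_, _, _, h, _⟩ | h
    · simp at h
    · simp at h
    · right; right
      rcases h2 with ⟨_, h2⟩ | ⟨h2, _⟩
      · omega
      · cases h2
  · right; right
    rcases h2 with ⟨h2, _⟩ | ⟨_, rfl, h2⟩
    · exact absurd rfl h2
    · rcases h with ⟨h, _⟩ | ⟨_, h, _⟩ | h <;> omega
  · rcases h with ⟨ha, hb, hc, hd⟩ | ⟨ha, hb, hc, hd, he⟩ | h
    · left
      refine ⟨by omega, by omega, ⟨h6, hc.2⟩, ?_⟩
      rw [if_neg (fun h => h4 h.symm)] at hd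
      omega
    · right; left
      refine ⟨ha, by omega, by omega, ⟨h6, hd.2⟩, ?_⟩
      rintro z (hz | hz)
      · exact h8 he.1 z hz
      · exact he.2 z hz
    · right; right
      omega

/-- The first catalyst works on the control object, the second one is idle. -/
theorem Inv.ki {c : ℤ} {N y0 : ℕ} {Z : Multiset S}
    (hZ : ∀ z ∈ Z, s2 z = none) (h : Inv c N y0 Z) : Inv (c + 1) N y0 Z := by
  unfold Inv at h ⊢
  rcases h with ⟨ha, hb, hc, hd⟩ | ⟨ha, hb, hc, hd, he⟩ | h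
  · right; left
    have h5 : count S.E Z = 0 := count_eq_zero.2 fun hE => (s2_none (hZ _ hE)).1 rfl
    exact ⟨by omega, by omega, hb, hc, fun z hz => (s2_none (hZ z hz)).2⟩
  · right; right
    omega
  · right; right
    omega

/-- At the end of the pipeline. -/
theorem Inv.calm {N y0 : ℕ} {Y : Multiset S} (h : Inv 1 N y0 Y) (hY : ∀ z ∈ Y, calm z) :
    y0 = 0 ∧ Y = replicate N .E := by
  have h0 := Lam_calm hY
  rcases h with ⟨ha, hb, hc, hd⟩ | ⟨ha, hb, hc, hd, he⟩ | h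
  · omega
  · refine ⟨ha, ?_⟩
    rw [← hc]
    refine eq_replicate_card.2 fun z hz => ?_
    rcases hY z hz with rfl | rfl
    · exact absurd rfl (he _ hz).1
    · rfl
  · omega

end Pool.Agent.H96.PC
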