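import Pool.Agent.H96.PC.Pot

/-!
Once the potential of the stock is below the late bound, the computation cannot succeed.
-/

namespace Pool.Agent.H96.PC

open Multiset

variable {Q : Type}

theorem late (acts : Q → List (Act Q)) : ∀ (k : ℕ) (κ : Option (K Q)) (Y : Multiset S) (n : ℕ),
    Lam Y ≤ cl κ → ¬ Acc acts k (κ, Y) n := by
  intro k
  induction k with
  | zero =>
    intro κ Y n hL h
    obtain ⟨h1, -⟩ := h
    obtain ⟨rfl, rfl⟩ := Prod.mk.inj h1
    rw [Lam_zero] at hL
    have := cl_neg (none : Option (K Q))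
    omega
  | succ k ih =>
    intro κ Y n hL h
    obtain ⟨c', j, n', hst, hacc, -⟩ := h
    cases hst with
    | ss h1 h2 =>
      refine ih _ _ _ ?_ hacc
      have e1 := lam_s1 h1
      have e2 := Lam_s2_le h2
      simp only [Lam_cons, Lam_add] at hL ⊢
      omega
    | sk h1 h2 =>
      refine ih _ _ _ ?_ hacc
      have e1 := lam_s1 h1
      have e2 := Lam_k2 h2
      have e3 := cl_k2 h2
      simp only [Lam_cons, Lam_add] at hL ⊢
      omega
    | ks h1 h2 =>
      refine ih _ _ _ ?_ hacc
      have e1 := cl_k1 h1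
      have e2 := Lam_s2_le h2
      simp only [Lam_cons, Lam_add] at hL ⊢
      omega
    | si h1 _ _ =>
      refine ih _ _ _ ?_ hacc
      have e1 := lam_s1 h1
      simp only [Lam_cons] at hL ⊢
      omega
    | ki h1 _ =>
      refine ih _ _ _ ?_ hacc
      have e1 := cl_k1 h1
      omega
    | @is y v Z h1 h2 =>
      have e1 := Lam_calm h2
      have e2 : -1 ≤ lam y := by cases y <;> simp [lam]
      have e3 : cl (none : Option (K Q)) = -4 := rfl
      simp only [Lam_cons] at hL
      omega
    | @ik κ0 κ' w _ _ _ h2 =>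
      have e1 := Lam_calm h2
      have e2 := cl_neg (some κ0)
      omega

end Pool.Agent.H96.PC
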