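import Pool.Agent.H83.CounterMachine

/-!
Every recursively enumerable set of natural numbers is generated by a nondeterministic machine
that multiplies and divides a single positive number.
-/

namespace Pool.Agent.H96.PC

open Function

/-- Instructions of a machine that multiplies and divides a single positive number. -/
inductive MI (Q : Type)
  | goto (l : Q) | mul (k : ℕ) (l : Q) | div (k : ℕ) (l0 l1 : Q) | emit (l : Q)
  | fork (l l' : Q) | halt

/-- `MAcc mp k q M n`: after `k` steps from state `q` with the number `M` the machine halts, and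
`n` output symbols are emitted.  The instruction `div k l0 l1` divides by `k` and continues with
`l1` if this is possible without remainder, and continues with `l0` otherwise. -/
def MAcc {Q : Type} (mp : Q → MI Q) : ℕ → Q → ℕ → ℕ → Prop
  | 0, q, _, n => mp q = .halt ∧ n = 0
  | k + 1, q, M, n => match mp q with
    | .goto l => MAcc mp k l M n
    | .mul m l => MAcc mp k l (m * M) n
    | .div m l0 l1 => if m ∣ M then MAcc mp k l1 (M / m) n else MAcc mp k l0 M n
    | .emit l => ∃ n', n = n' + 1 ∧ MAcc mp k l M n'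
    | .fork l l' => MAcc mp k l M n ∨ MAcc mp k l' M n
    | .halt => False

/-- The states of the generating machine: the generator and the states of a counter machine. -/
inductive GS (N : ℕ)
  | gen | genE | genM | st (q : Fin (N + 1))
  deriving DecidableEq, Fintype

/-- The state with a given number. -/
def mkSt (N q : ℕ) : Fin (N + 1) := ⟨min q N, by omega⟩

theorem mkSt_val {N q : ℕ} (h : q ≤ N) : (mkSt N q).val = q := min_eq_left h

/-- The primes. -/
noncomputable def pr (r : ℕ) : ℕ := Nat.nth Nat.Prime r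

theorem pr_prime (r : ℕ) : (pr r).Prime := Nat.prime_nth_prime r

theorem pr_zero : pr 0 = 2 := Nat.nth_prime_zero_eq_two

theorem pr_mono {r s : ℕ} (h : r ≤ s) : pr r ≤ pr s :=
  (Nat.nth_strictMono Nat.infinite_setOfPred_prime).monotone h

theorem pr_inj {r s : ℕ} (h : pr r = pr s) : r = s :=
  (Nat.nth_strictMono Nat.infinite_setOfPred_prime).injective h

/-- The number `M` encodes the register contents `s`. -/
def Enc (M : ℕ) (s : ℕ → ℕ) : Prop := M ≠ 0 ∧ ∀ r, M.factorization (pr r) = s r

theorem Enc.mul {M : ℕ} {s : ℕ → ℕ} (h : Enc M s) (r : ℕ) :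
    Enc (pr r * M) (update s r (s r + 1)) := by
  refine ⟨Nat.mul_ne_zero (pr_prime r).ne_zero h.1, fun i => ?_⟩
  rw [Nat.factorization_mul (pr_prime r).ne_zero h.1, Finsupp.add_apply, h.2,
    (pr_prime r).factorization, Finsupp.single_apply]
  by_cases hi : i = r
  · subst hi
    simp [add_comm]
  · rw [if_neg (fun h' => hi (pr_inj h').symm), update_of_ne hi, zero_add]

theorem Enc.dvd {M : ℕ} {s : ℕ → ℕ} (h : Enc M s) (r : ℕ) : pr r ∣ M ↔ s r ≠ 0 := by
  rw [← h.2 r, ← Nat.pos_iff_ne_zero, (pr_prime r).dvd_iff_one_le_factorization h.1]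
  rfl

theorem Enc.div {M : ℕ} {s : ℕ → ℕ} (h : Enc M s) {r : ℕ} (hr : s r ≠ 0) :
    Enc (M / pr r) (update s r (s r - 1)) := by
  have hd := (h.dvd r).2 hr
  obtain ⟨K, rfl⟩ := hd
  rw [Nat.mul_div_cancel_left _ (pr_prime r).pos]
  have hK : K ≠ 0 := fun h0 => h.1 (by rw [h0, mul_zero])
  refine ⟨hK, fun i => ?_⟩
  have h2 := h.2 i
  rw [Nat.factorization_mul (pr_prime r).ne_zero hK, Finsupp.add_apply,
    (pr_prime r).factorization, Finsupp.single_apply] at h2
  by_cases hi : i = r
  · subst hi
    rw [if_pos rfl] at h2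
    rw [update_self]
    omega
  · rw [if_neg (fun h' => hi (pr_inj h').symm), zero_add] at h2
    rw [update_of_ne hi, h2]

theorem enc_pow (n : ℕ) : Enc (2 ^ n) (H83.init n) := by
  refine ⟨by positivity, fun r => ?_⟩
  rw [Nat.prime_two.factorization_pow, Finsupp.single_apply, H83.init]
  by_cases hr : r = 0
  · subst hr
    rw [if_pos pr_zero.symm, update_self]
  · rw [if_neg (fun h => hr (pr_inj (pr_zero.trans h)).symm), update_of_ne hr]

/-- The program of the generating machine. -/
noncomputable def gmp (ins : ℕ → H83.Instr) (N q₀ : ℕ) : GS N → MI (GS N)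
  | .gen => .fork .genE (.st (mkSt N q₀))
  | .genE => .emit .genM
  | .genM => .mul 2 .gen
  | .st q => if q.val < N then
      match ins q.val with
      | .halt => .halt
      | .goto l => .goto (.st (mkSt N l))
      | .inc r l => .mul (pr r) (.st (mkSt N l))
      | .jz r l0 l1 => .div (pr r) (.st (mkSt N l0)) (.st (mkSt N l1))
    else .halt

section Sim

variable {ins : ℕ → H83.Instr} {N R q₀ : ℕ}

theorem gmp_halt {q : ℕ} (hq : q < N) (h : ins q = .halt) :
    gmp ins N q₀ (.st (mkSt N q)) = .halt := by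
  simp [gmp, mkSt_val hq.le, h]

/-- One step of the simulated machine. -/
theorem macc_step (hB : ∀ q < N, (ins q).Below N)
    {q : ℕ} (hq : q < N) (h : ins q ≠ .halt) {M : ℕ} {s : ℕ → ℕ} (hE : Enc M s) :
    ∃ q' s' M', H83.mstep ins (q, s) = (q', s') ∧ q' < N ∧ Enc M' s' ∧
      ∀ k n, (MAcc (gmp ins N q₀) (k + 1) (.st (mkSt N q)) M n ↔
        MAcc (gmp ins N q₀) k (.st (mkSt N q')) M' n) := by
  have hb := hB q hq
  have hv : (mkSt N q).val = q := mkSt_val hq.le
  cases hi : ins q with
  | halt => exact absurd hi h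
  | goto l =>
    rw [hi] at hb
    refine ⟨l, s, M, by simp [H83.mstep, hi], hb, hE, fun k n => ?_⟩
    have : gmp ins N q₀ (.st (mkSt N q)) = .goto (.st (mkSt N l)) := by simp [gmp, hv, hi, hq]
    simp only [MAcc, this]
  | inc r l =>
    rw [hi] at hb
    refine ⟨l, update s r (s r + 1), pr r * M, by simp [H83.mstep, hi], hb, hE.mul r,
      fun k n => ?_⟩
    have : gmp ins N q₀ (.st (mkSt N q)) = .mul (pr r) (.st (mkSt N l)) := by
      simp [gmp, hv, hi, hq]
    simp only [MAcc, this]
  | jz r l0 l1 =>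
    rw [hi] at hb
    have this : gmp ins N q₀ (.st (mkSt N q)) =
        .div (pr r) (.st (mkSt N l0)) (.st (mkSt N l1)) := by
      simp [gmp, hv, hi, hq]
    by_cases hs : s r = 0
    · refine ⟨l0, s, M, by simp [H83.mstep, hi, hs], hb.1, hE, fun k n => ?_⟩
      simp only [MAcc, this]
      rw [if_neg (by rw [hE.dvd]; simpa using hs)]
    · refine ⟨l1, update s r (s r - 1), M / pr r, by simp [H83.mstep, hi, hs], hb.2,
        hE.div hs, fun k n => ?_⟩
      simp only [MAcc, this]
      rw [if_pos ((hE.dvd r).2 hs)]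

/-- Soundness of the simulation. -/
theorem sim_sound (hB : ∀ q < N, (ins q).Below N) : ∀ (k : ℕ) (q M n : ℕ) (s : ℕ → ℕ), q < N →
      Enc M s → MAcc (gmp ins N q₀) k (.st (mkSt N q)) M n →
      (∃ i, ins ((H83.mstep ins)^[i] (q, s)).1 = .halt) ∧ n = 0 := by
  intro k
  induction k with
  | zero =>
    intro q M n s hq hE hacc
    refine ⟨⟨0, ?_⟩, hacc.2⟩
    have h1 := hacc.1
    by_contra h
    change ins q ≠ .halt at h
    have hv : (mkSt N q).val = q := mkSt_val hq.le
    simp only [gmp, hv, hq, if_true] at h1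
    cases hi : ins q with
    | halt => exact h hi
    | goto l => rw [hi] at h1; cases h1
    | inc r l => rw [hi] at h1; cases h1
    | jz r l0 l1 => rw [hi] at h1; cases h1
  | succ k ih =>
    intro q M n s hq hE hacc
    by_cases h : ins q = .halt
    · exfalso
      simp only [MAcc, gmp_halt hq h] at hacc
    · obtain ⟨q', s', M', h1, h2, h3, h4⟩ := macc_step (q₀ := q₀) hB hq h hE
      obtain ⟨⟨i, hi⟩, he⟩ := ih q' M' n s' h2 h3 ((h4 _ _).1 hacc)
      refine ⟨⟨i + 1, ?_⟩, he⟩
      rw [iterate_succ_apply, h1]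
      exact hi

/-- Completeness of the simulation. -/
theorem sim_complete (hB : ∀ q < N, (ins q).Below N) : ∀ (i : ℕ) (q M : ℕ) (s : ℕ → ℕ), q < N →
      Enc M s → ins ((H83.mstep ins)^[i] (q, s)).1 = .halt →
      ∃ k, MAcc (gmp ins N q₀) k (.st (mkSt N q)) M 0 := by
  intro i
  have hhalt : ∀ (q M : ℕ), q < N → ins q = .halt →
      ∃ k, MAcc (gmp ins N q₀) k (.st (mkSt N q)) M 0 := by
    intro q M hq h
    exact ⟨0, gmp_halt hq h, rfl⟩
  induction i with
  | zero =>
    intro q M s hq hE h
    exact hhalt q M hq h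
  | succ i ih =>
    intro q M s hq hE h
    by_cases hh : ins q = .halt
    · exact hhalt q M hq hh
    · obtain ⟨q', s', M', h1, h2, h3, h4⟩ := macc_step (q₀ := q₀) hB hq hh hE
      rw [iterate_succ_apply, h1] at h
      obtain ⟨k, hk⟩ := ih q' M' s' h2 h3 h
      exact ⟨k + 1, (h4 _ _).2 hk⟩

end Sim

theorem exists_mi {A : Set ℕ} (hA : REPred fun n => n ∈ A) :
    ∃ (Q : Type) (_ : Fintype Q) (_ : DecidableEq Q) (mp : Q → MI Q) (q0 : Q) (P : ℕ),
      (∀ q m l, mp q = .mul m l → 0 < m ∧ m ≤ P) ∧
      (∀ q m l0 l1, mp q = .div m l0 l1 → 0 < m ∧ m ≤ P) ∧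
      ∀ n, n ∈ A ↔ ∃ k, MAcc mp k q0 1 n := by
  obtain ⟨ins, N, R, q₀, hq₀, hR0, hB, hR, hins⟩ := H83.exists_machine hA
  have h2P : 2 ≤ pr R := by rw [← pr_zero]; exact pr_mono (Nat.zero_le R)
  have hgen : gmp ins N q₀ .gen = .fork .genE (.st (mkSt N q₀)) := rfl
  have hgenE : gmp ins N q₀ .genE = .emit .genM := rfl
  have hgenM : gmp ins N q₀ .genM = .mul 2 .gen := rfl
  have hsound : ∀ (k j n : ℕ), MAcc (gmp ins N q₀) k .gen (2 ^ j) n → j + n ∈ A := by
    intro k
    induction k using Nat.strong_induction_on with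
    | _ k ih =>
      intro j n hacc
      match k, ih, hacc with
      | 0, _, hacc => exact absurd hacc.1 (by rw [hgen]; simp)
      | k + 1, ih, hacc =>
        simp only [MAcc, hgen] at hacc
        rcases hacc with h1 | h1
        · match k, ih, h1 with
          | 0, _, h1 => exact absurd h1.1 (by rw [hgenE]; simp)
          | k + 1, ih, h1 =>
            simp only [MAcc, hgenE] at h1
            obtain ⟨n', rfl, h2⟩ := h1
            match k, ih, h2 with
            | 0, _, h2 => exact absurd h2.1 (by rw [hgenM]; simp)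
            | k + 1, ih, h2 =>
              simp only [MAcc, hgenM] at h2
              rw [show 2 * 2 ^ j = 2 ^ (j + 1) by ring] at h2
              have h3 := ih k (by omega) (j + 1) n' h2
              rwa [show j + (n' + 1) = j + 1 + n' by omega]
        · obtain ⟨h2, rfl⟩ := sim_sound (q₀ := q₀) hB k q₀ (2 ^ j) n (H83.init j) hq₀
            (enc_pow j) h1
          exact (hins j).2 h2
  have hcomplete : ∀ e ∈ A, ∀ j ≤ e, ∃ k, MAcc (gmp ins N q₀) k .gen (2 ^ (e - j)) j := by
    intro e he j
    induction j with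
    | zero =>
      intro _
      obtain ⟨i, hi⟩ := (hins e).1 he
      obtain ⟨k, hk⟩ := sim_complete (q₀ := q₀) hB i q₀ (2 ^ e) (H83.init e) hq₀
        (enc_pow e) hi
      refine ⟨k + 1, ?_⟩
      simp only [MAcc, hgen]
      exact Or.inr hk
    | succ j ih =>
      intro hj
      obtain ⟨k, hk⟩ := ih (by omega)
      refine ⟨k + 3, ?_⟩
      simp only [MAcc, hgen, hgenE, hgenM]
      refine Or.inl ⟨j, rfl, ?_⟩
      rw [show 2 * 2 ^ (e - (j + 1)) = 2 ^ (e - j) by
        rw [← pow_succ', show e - (j + 1) + 1 = e - j by omega]]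
      exact hk
  refine ⟨GS N, inferInstance, inferInstance, gmp ins N q₀, .gen, pr R, ?_, ?_, ?_⟩
  · rintro (_ | _ | _ | q) m l h
    · cases h
    · cases h
    · cases h
      exact ⟨by omega, h2P⟩
    · simp only [gmp] at h
      split_ifs at h with hq
      have hr := hR q.val hq
      cases hi : ins q.val with
      | halt => rw [hi] at h; cases h
      | goto l => rw [hi] at h; cases h
      | inc r l =>
        rw [hi] at h hr
        cases h
        exact ⟨(pr_prime r).pos, pr_mono (le_of_lt hr)⟩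
      | jz r l0 l1 => rw [hi] at h; cases h
  · rintro (_ | _ | _ | q) m l0 l1 h
    · cases h
    · cases h
    · cases h
    · simp only [gmp] at h
      split_ifs at h with hq
      have hr := hR q.val hq
      cases hi : ins q.val with
      | halt => rw [hi] at h; cases h
      | goto l => rw [hi] at h; cases h
      | inc r l => rw [hi] at h; cases h
      | jz r l0 l1 =>
        rw [hi] at h hr
        cases h
        exact ⟨(pr_prime r).pos, pr_mono (le_of_lt hr)⟩
  · intro n
    constructor
    · intro hn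
      obtain ⟨k, hk⟩ := hcomplete n hn n le_rfl
      rw [Nat.sub_self, pow_zero] at hk
      exact ⟨k, hk⟩
    · rintro ⟨k, hk⟩
      have := hsound k 0 n (by rwa [pow_zero])
      rwa [zero_add] at this

end Pool.Agent.H96.PC
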