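import Pool.Agent.H75.PSys.Two

/-!
A purely catalytic P system with one membrane and one copy of each of two catalysts that simulates
a unary transducer machine: objects and rules.
-/

namespace Pool.Agent.H96.PC

open Multiset Pool.Agent.H75.PSys

/-- The actions of a unary transducer machine.  The machine reads a number `y` in unary and writes
a number `x` in unary: `goto` changes the state (and emits an output symbol if `o` is true), `win`
writes `k` units and reads one unit, `pipe` writes `k` units and then replaces `(x, 0)` by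
`(0, x)`; `stop` ends the computation. -/
inductive Act (Q : Type)
  | goto (o : Bool) (l : Q)
  | win (k : ℕ) (l : Q)
  | pipe (k : ℕ) (l : Q)
  | stop

/-- The stock objects. -/
inductive S
  | A0 | A1 | A2 | B0 | B1 | B2 | B3 | D | E | e
  deriving DecidableEq, Fintype

/-- The control objects. -/
inductive K (Q : Type)
  | b0 (q : Q) | b1 (q : Q) | b2 (q : Q) | b3 (q : Q) | b4 (q : Q)
  | a0 (q : Q) | a1 (q : Q)
  | s0 (q : Q) | s1 (q : Q) | s2 (q : Q)
  | t0 (q : Q) | t1 (q : Q) | t2 (q : Q)
  | u (q : Q)
  deriving DecidableEq, Fintype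

/-- All objects. -/
inductive Obj (Q : Type)
  | c1 | c2 | trap | out
  | k (κ : K Q)
  | st (x : S)
  deriving DecidableEq, Fintype

variable {Q : Type}

/-- The right-hand side that produces one object. -/
def one (o : Obj Q) : Out (Obj Q) := {(o, Target.here)}

/-- The right-hand sides for the first catalyst. -/
def T1 : Obj Q → Set (Out (Obj Q))
  | .trap => {one .trap}
  | .st .B0 => {one (.st .B1)}
  | .st .B1 => {one (.st .B2)}
  | .st .B2 => {one (.st .B3)}
  | .st .B3 => {one (.st .D)}
  | .st .A1 => {one .trap}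
  | .st .A2 => {one .trap}
  | .st .D => {one .trap}
  | .st .e => {one .trap}
  | .k (.a0 q) => {one (.k (.a1 q))}
  | .k (.a1 q) => {one (.k (.b0 q))}
  | .k (.s0 q) => {one (.k (.s1 q))}
  | .k (.s1 q) => {one (.k (.s2 q))}
  | .k (.s2 q) => {one (.k (.t0 q))}
  | .k (.u q) => {one (.k (.b0 q))}
  | .k (.b0 _) => {one .trap}
  | .k (.b1 _) => {one .trap}
  | .k (.b2 _) => {one .trap}
  | .k (.b3 _) => {one .trap}
  | .k (.b4 _) => {one .trap}
  | .k (.t0 _) => {one .trap}
  | .k (.t1 _) => {one .trap}
  | .k (.t2 _) => {one .trap}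
  | _ => ∅

/-- The right-hand side of an action. -/
def actOut : Act Q → Out (Obj Q)
  | .goto o l => (if o then {(.out, .out)} else 0) + one (.k (.b0 l))
  | .win k l => replicate k (.st .A0, .here) + one (.k (.a0 l))
  | .pipe k l => replicate k (.st .A0, .here) + one (.k (.s0 l))
  | .stop => 0

/-- The right-hand sides for the second catalyst. -/
def T2 (acts : Q → List (Act Q)) : Obj Q → Set (Out (Obj Q))
  | .st .A0 => {one (.st .A1)}
  | .st .A1 => {one (.st .A2)}
  | .st .A2 => {one (.st .B0)}
  | .st .D => {one (.st .E)}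
  | .st .E => {one (.st .e)}
  | .st .e => {0}
  | .k (.b0 q) => {one (.k (.b1 q))}
  | .k (.b1 q) => {one (.k (.b2 q))}
  | .k (.b2 q) => {one (.k (.b3 q))}
  | .k (.b3 q) => {one (.k (.b4 q))}
  | .k (.b4 q) => {v | ∃ α ∈ acts q, v = actOut α}
  | .k (.t0 q) => {one (.k (.t1 q))}
  | .k (.t1 q) => {one (.k (.t2 q))}
  | .k (.t2 q) => {one (.k (.u q))}
  | _ => ∅

/-- The stock rules of the first catalyst. -/
def s1 : S → Option S
  | .B0 => some .B1
  | .B1 => some .B2
  | .B2 => some .B3
  | .B3 => some .D
  | _ => none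

/-- The stock rules of the second catalyst. -/
def s2 : S → Option (Multiset S)
  | .A0 => some {.A1}
  | .A1 => some {.A2}
  | .A2 => some {.B0}
  | .D => some {.E}
  | .E => some {.e}
  | .e => some 0
  | _ => none

/-- The control rules of the first catalyst. -/
def k1 : K Q → Option (K Q)
  | .a0 q => some (.a1 q)
  | .a1 q => some (.b0 q)
  | .s0 q => some (.s1 q)
  | .s1 q => some (.s2 q)
  | .s2 q => some (.t0 q)
  | .u q => some (.b0 q)
  | _ => none

/-- The control rules of the second catalyst: `k2 acts κ κ' w j` means that `κ` may be replaced by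
`κ'` and the stock `w`, with `j` objects sent to the environment. -/
inductive k2 (acts : Q → List (Act Q)) : K Q → Option (K Q) → Multiset S → ℕ → Prop
  | b0 (q) : k2 acts (.b0 q) (some (.b1 q)) 0 0
  | b1 (q) : k2 acts (.b1 q) (some (.b2 q)) 0 0
  | b2 (q) : k2 acts (.b2 q) (some (.b3 q)) 0 0
  | b3 (q) : k2 acts (.b3 q) (some (.b4 q)) 0 0
  | t0 (q) : k2 acts (.t0 q) (some (.t1 q)) 0 0
  | t1 (q) : k2 acts (.t1 q) (some (.t2 q)) 0 0
  | t2 (q) : k2 acts (.t2 q) (some (.u q)) 0 0
  | goto (q o l) : Act.goto o l ∈ acts q → k2 acts (.b4 q) (some (.b0 l)) 0 (if o then 1 else 0)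
  | win (q m l) : Act.win m l ∈ acts q → k2 acts (.b4 q) (some (.a0 l)) (replicate m .A0) 0
  | pipe (q m l) : Act.pipe m l ∈ acts q → k2 acts (.b4 q) (some (.s0 l)) (replicate m .A0) 0
  | stop (q) : Act.stop ∈ acts q → k2 acts (.b4 q) none 0 0

/-- Stock objects without rules for the first catalyst. -/
def calm (z : S) : Prop := z = .A0 ∨ z = .E

/-- Configurations without trap: at most one control object, and the stock. -/
abbrev Cf (Q : Type) := Option (K Q) × Multiset S

/-- The control object as a multiset. -/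
def kms : Option (K Q) → Multiset (Obj Q)
  | none => 0
  | some κ => {.k κ}

/-- The region contents without the catalysts. -/
def ms (c : Cf Q) : Multiset (Obj Q) := kms c.1 + c.2.map .st

/-- Steps that do not produce the trap object. -/
inductive CStep (acts : Q → List (Act Q)) : Cf Q → Cf Q → ℕ → Prop
  | ss {κ : Option (K Q)} {x x' y : S} {v Z : Multiset S} : s1 x = some x' → s2 y = some v →
      CStep acts (κ, x ::ₘ y ::ₘ Z) (κ, x' ::ₘ (v + Z)) 0
  | sk {κ : K Q} {κ' : Option (K Q)} {x x' : S} {w Z : Multiset S} {j : ℕ} :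
      s1 x = some x' → k2 acts κ κ' w j → CStep acts (some κ, x ::ₘ Z) (κ', x' ::ₘ (w + Z)) j
  | ks {κ κ' : K Q} {y : S} {v Z : Multiset S} : k1 κ = some κ' → s2 y = some v →
      CStep acts (some κ, y ::ₘ Z) (some κ', v + Z) 0
  | si {κ : Option (K Q)} {x x' : S} {Z : Multiset S} : s1 x = some x' →
      (∀ z ∈ Z, s2 z = none) → (∀ c, κ = some c → k1 c ≠ none) →
      CStep acts (κ, x ::ₘ Z) (κ, x' ::ₘ Z) 0
  | ki {κ κ' : K Q} {Z : Multiset S} : k1 κ = some κ' → (∀ z ∈ Z, s2 z = none) →
      CStep acts (some κ, Z) (some κ', Z) 0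
  | is {y : S} {v Z : Multiset S} : s2 y = some v → (∀ z ∈ Z, calm z) →
      CStep acts (none, y ::ₘ Z) (none, v + Z) 0
  | ik {κ : K Q} {κ' : Option (K Q)} {w Z : Multiset S} {j : ℕ} : k2 acts κ κ' w j →
      (∀ z ∈ Z, calm z) → CStep acts (some κ, Z) (κ', w + Z) j

/-- `Acc acts k c n`: a trap-free computation of length `k` leads from `c` to the empty
configuration and sends `n` objects to the environment. -/
def Acc (acts : Q → List (Act Q)) : ℕ → Cf Q → ℕ → Prop
  | 0, c, n => c = (none, 0) ∧ n = 0
  | k + 1, c, n => ∃ c' j n', CStep acts c c' j ∧ Acc acts k c' n' ∧ n = j + n'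

/-- `x` unprocessed units that were written, and `y` units to be read. -/
def AE (x y : ℕ) : Multiset S := replicate x .A0 + replicate y .E

/-- The syntactic condition on a machine: `pos q` guarantees that at least one unit has been
written. -/
structure Good (acts : Q → List (Act Q)) (pos : Q → Bool) : Prop where
  goto : ∀ q o l, Act.goto o l ∈ acts q → pos l = true → pos q = true
  win : ∀ q m l, Act.win m l ∈ acts q → pos q = true ∨ 0 < m
  pipe : ∀ q m l, Act.pipe m l ∈ acts q → (pos q = true ∨ 0 < m) ∧ pos l = false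

/-- Accepting computations of a unary transducer machine: `UAcc acts F k q x y n` means that from
state `q`, with `x` units written and `y` units to be read, after `k` actions a state with the
action `stop` is reached, with a number of written units that satisfies `F`, and that `n` output
symbols are emitted. -/
def UAcc (acts : Q → List (Act Q)) (F : ℕ → Prop) : ℕ → Q → ℕ → ℕ → ℕ → Prop
  | 0, q, x, _, n => Act.stop ∈ acts q ∧ F x ∧ n = 0
  | k + 1, q, x, y, n =>
      (∃ o l n', Act.goto o l ∈ acts q ∧ n = (if o then 1 else 0) + n' ∧ UAcc acts F k l x y n') ∨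
      (∃ m l y', Act.win m l ∈ acts q ∧ y = y' + 1 ∧ UAcc acts F k l (x + m) y' n) ∨
      (∃ m l, Act.pipe m l ∈ acts q ∧ y = 0 ∧ UAcc acts F k l 0 (x + m) n)

end Pool.Agent.H96.PC
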