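import Pool.Agent.H96.PC.UPhase

/-!
The middle phase of the pipeline.
-/

namespace Pool.Agent.H96.PC

open Multiset

variable {Q : Type}

/-- The control objects of the middle phase and the corresponding bounds. -/
inductive TP (q : Q) : K Q → ℤ → Prop
  | t0 : TP q (.t0 q) 3
  | t1 : TP q (.t1 q) 2
  | t2 : TP q (.t2 q) 1

theorem t_phase (acts : Q → List (Act Q)) : ∀ (k : ℕ) (q : Q) (κ : K Q) (m : ℤ)
    (Y : Multiset S) (n N y0 : ℕ), TP q κ m → (∃ z ∈ Y, bd z) → Inv m N y0 Y →
    Acc acts k (some κ, Y) n →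
    y0 = 0 ∧ ∃ k' < k, Acc acts k' (some (.b0 q), replicate N .E) n := by
  intro k
  induction k with
  | zero =>
    intro q κ m Y n N y0 _ _ _ h
    exact absurd (congrArg Prod.fst h.1) (by simp)
  | succ k ih =>
    intro q κ m Y n N y0 hT hY hI h
    obtain ⟨c', j, n', hstep, hacc, rfl⟩ := h
    have hbd : ∀ {x x' : S}, s1 x = some x' → bd x' := by
      intro x x' hx
      cases x <;> simp only [s1, Option.some.injEq, reduceCtorEq] at hx <;> subst hx <;>
        simp [bd]
    have fin : ∀ {n' : ℕ}, (y0 = 0 ∧ ∃ k' < k, Acc acts k' (some (.b0 q), replicate N .E) n') →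
        y0 = 0 ∧ ∃ k' < k + 1, Acc acts k' (some (.b0 q), replicate N .E) (0 + n') := by
      rintro n' ⟨h0, k', hk, h⟩
      exact ⟨h0, k', by omega, by rwa [Nat.zero_add]⟩
    cases hstep with
    | ss hx hy =>
      exact fin (ih q κ m _ _ N y0 hT ⟨_, mem_cons_self _ _, hbd hx⟩ (Inv.ss hx hy hI) hacc)
    | sk hx hk =>
      cases hT with
      | t0 =>
        cases hk
        rw [Multiset.zero_add] at hacc
        exact fin (ih q _ _ _ _ N y0 TP.t1 ⟨_, mem_cons_self _ _, hbd hx⟩ (Inv.sk hx hI) hacc)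
      | t1 =>
        cases hk
        rw [Multiset.zero_add] at hacc
        exact fin (ih q _ _ _ _ N y0 TP.t2 ⟨_, mem_cons_self _ _, hbd hx⟩ (Inv.sk hx hI) hacc)
      | t2 =>
        cases hk
        rw [Multiset.zero_add] at hacc
        exact fin (u_phase acts k q _ _ N y0 (Inv.sk hx hI) hacc)
    | ks hk hy =>
      cases hT <;> simp [k1] at hk
    | si hx hZ hc =>
      exact fin (ih q κ m _ _ N y0 hT ⟨_, mem_cons_self _ _, hbd hx⟩ (Inv.si hx hZ hI) hacc)
    | ki hk hZ =>
      cases hT <;> simp [k1] at hk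
    | ik hk hZ =>
      obtain ⟨z, hz, hb⟩ := hY
      rcases hZ z hz with rfl | rfl <;> simp [bd] at hb

end Pool.Agent.H96.PC
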