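import Pool.Agent.H96.PC.Start
import Pool.Agent.H96.PC.TPhase

/-!
Soundness of the pipeline.
-/

namespace Pool.Agent.H96.PC

open Multiset

variable {Q : Type}

theorem pipe_sound (acts : Q → List (Act Q)) {k x y : ℕ} {q : Q} {n : ℕ} (hx : 0 < x)
    (h : Acc acts k (some (.s0 q), AE x y) n) :
    y = 0 ∧ ∃ k' < k, Acc acts k' (some (.b0 q), AE 0 x) n := by
  obtain ⟨k1, rfl, h1⟩ := start acts hx h
  have hinv : Inv 3 (x + y) y (.B0 ::ₘ AE (x - 1) y) := by
    left
    refine ⟨?_, ?_, ?_, ?_⟩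
    · simp [AE, lam]
    · simp only [AE, card_cons, card_add, card_replicate]
      omega
    · simp [AE, mem_replicate]
    · simp [AE, count_replicate]
  obtain ⟨hy, k2, hk2, h2⟩ := t_phase acts k1 q (.t0 q) 3 _ n (x + y) y .t0
    ⟨.B0, mem_cons_self _ _, by simp [bd]⟩ hinv h1
  refine ⟨hy, k2, by omega, ?_⟩
  subst hy
  simpa [AE] using h2

end Pool.Agent.H96.PC
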