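import Pool.Agent.H96.PC.Obj

/-!
The potential.
-/

namespace Pool.Agent.H96.PC

open Multiset

variable {Q : Type}

/-- The potential of a stock object. -/
def lam : S → ℤ
  | .A0 => 0 | .A1 => 1 | .A2 => 2
  | .B0 => 3 | .B1 => 2 | .B2 => 1 | .B3 => 0
  | .D => -1 | .E => 0 | .e => -1

/-- The potential of a stock. -/
def Lam (Y : Multiset S) : ℤ := (Y.map lam).sum

@[simp] theorem Lam_zero : Lam 0 = 0 := rfl

@[simp] theorem Lam_cons (x : S) (Y : Multiset S) : Lam (x ::ₘ Y) = lam x + Lam Y := by
  simp [Lam]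

@[simp] theorem Lam_add (X Y : Multiset S) : Lam (X + Y) = Lam X + Lam Y := by
  simp [Lam]

@[simp] theorem Lam_singleton (x : S) : Lam {x} = lam x := by simp [Lam]

@[simp] theorem Lam_replicate (n : ℕ) (x : S) : Lam (replicate n x) = n * lam x := by
  simp [Lam]

theorem Lam_calm {Y : Multiset S} (h : ∀ z ∈ Y, calm z) : Lam Y = 0 := by
  induction Y using Multiset.induction_on with
  | empty => rfl
  | cons x Y ih =>
    rw [Lam_cons, ih fun z hz => h z (mem_cons_of_mem hz), add_zero]
    rcases h x (mem_cons_self x Y) with rfl | rfl <;> rfl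

/-- A step of the first catalyst on the stock. -/
theorem lam_s1 {x x' : S} (h : s1 x = some x') : lam x' = lam x - 1 := by
  cases x <;> simp only [s1, Option.some.injEq, reduceCtorEq] at h <;> subst h <;> rfl

/-- A step of the second catalyst on the stock. -/
theorem Lam_s2 {y : S} {v : Multiset S} (h : s2 y = some v) :
    (y ≠ .E ∧ Lam v = lam y + 1) ∨ (y = .E ∧ v = {.e} ∧ Lam v = lam y - 1) := by
  cases y <;> simp only [s2, Option.some.injEq, reduceCtorEq] at h <;> subst h <;> simp [lam]

theorem Lam_s2_le {y : S} {v : Multiset S} (h : s2 y = some v) : Lam v ≤ lam y + 1 := by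
  rcases Lam_s2 h with ⟨_, h⟩ | ⟨_, _, h⟩ <;> omega

/-- A step of the second catalyst on the control object does not change the potential of the
stock. -/
theorem Lam_k2 {acts : Q → List (Act Q)} {κ : K Q} {κ' : Option (K Q)} {w : Multiset S} {j : ℕ}
    (h : k2 acts κ κ' w j) : Lam w = 0 := by
  cases h <;> simp [lam]

/-- The late bounds. -/
def cl : Option (K Q) → ℤ
  | none => -4
  | some (.b0 _) => -2
  | some (.b1 _) => -3
  | some (.b2 _) => -4
  | some (.b3 _) => -5
  | some (.b4 _) => -6
  | some (.a0 _) => -4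
  | some (.a1 _) => -3
  | some (.s0 _) => -4
  | some (.s1 _) => -3
  | some (.s2 _) => -2
  | some (.t0 _) => -1
  | some (.t1 _) => -2
  | some (.t2 _) => -3
  | some (.u _) => -4

theorem cl_k1 {κ κ' : K Q} (h : k1 κ = some κ') : cl (some κ) + 1 ≤ cl (some κ') := by
  cases κ <;> simp only [k1, Option.some.injEq, reduceCtorEq] at h <;> subst h <;> simp [cl]

theorem cl_k2 {acts : Q → List (Act Q)} {κ : K Q} {κ' : Option (K Q)} {w : Multiset S} {j : ℕ}
    (h : k2 acts κ κ' w j) : cl (some κ) - 1 ≤ cl κ' := by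
  cases h <;> simp [cl]

theorem cl_neg (κ : Option (K Q)) : cl κ < 0 := by
  rcases κ with _ | κ
  · simp [cl]
  · cases κ <;> simp [cl]

end Pool.Agent.H96.PC
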