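import Pool.Agent.H96.PC.Pot

/-!
The first three steps of the pipeline.
-/

namespace Pool.Agent.H96.PC

open Multiset

variable {Q : Type}

/-- A step in which the first catalyst has to work on the control object. -/
theorem start_step (acts : Q → List (Act Q)) {κ κ' : K Q} {Y : Multiset S} {c' : Cf Q} {j : ℕ}
    (hκ : k1 κ = some κ') (h2 : ∀ κ'' w j, ¬ k2 acts κ κ'' w j)
    (hY : ∀ z ∈ Y, s1 z = none) (hA : ∃ z ∈ Y, s2 z ≠ none)
    (h : CStep acts (some κ, Y) c' j) :
    j = 0 ∧ ∃ y v Z, s2 y = some v ∧ Y = y ::ₘ Z ∧ c' = (some κ', v + Z) := by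
  cases h with
  | ss hx hy =>
    rw [hY _ (mem_cons_self _ _)] at hx
    exact absurd hx (by simp)
  | sk hx h =>
    rw [hY _ (mem_cons_self _ _)] at hx
    exact absurd hx (by simp)
  | ks h hy =>
    rw [hκ] at h
    obtain rfl := Option.some.inj h
    exact ⟨rfl, _, _, _, hy, rfl, rfl⟩
  | si hx _ _ =>
    rw [hY _ (mem_cons_self _ _)] at hx
    exact absurd hx (by simp)
  | ki h hZ =>
    obtain ⟨z, hz, hz2⟩ := hA
    exact absurd (hZ z hz) hz2
  | ik h _ => exact absurd h (h2 _ _ _)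

theorem AE_mem {x y : ℕ} {z : S} (h : z ∈ AE x y) : z = .A0 ∨ z = .E := by
  rw [AE, mem_add, mem_replicate, mem_replicate] at h
  rcases h with ⟨_, h⟩ | ⟨_, h⟩
  · exact Or.inl h
  · exact Or.inr h

theorem start (acts : Q → List (Act Q)) {k x y : ℕ} {q : Q} {n : ℕ} (hx : 0 < x)
    (h : Acc acts k (some (.s0 q), AE x y) n) :
    ∃ k', k = k' + 3 ∧ Acc acts k' (some (.t0 q), .B0 ::ₘ AE (x - 1) y) n := by
  obtain ⟨x, rfl⟩ : ∃ x', x = x' + 1 := ⟨x - 1, by omega⟩
  have hAE : AE (x + 1) y = .A0 ::ₘ AE x y := by simp [AE, replicate_succ]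
  rcases k with _ | k
  · exact absurd h.1 (by simp)
  obtain ⟨c1, j1, n1, hs1, h, rfl⟩ := h
  have m0 : ∀ z ∈ AE (x + 1) y, z = S.A0 ∨ z = S.E := fun z hz => AE_mem hz
  obtain ⟨rfl, y1, v1, Z1, hy1, hY0, rfl⟩ := start_step acts (κ := .s0 q) (κ' := .s1 q) rfl
    (by intro κ'' w j h; cases h) (by
      intro z hz
      rcases m0 z hz with rfl | rfl <;> rfl)
    ⟨.A0, by rw [hAE]; exact mem_cons_self _ _, by simp [s2]⟩ hs1
  have a0 : S.A0 ∈ AE (x + 1) y := by rw [hAE]; exact mem_cons_self _ _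
  have L0 : Lam (AE (x + 1) y) = 0 := Lam_calm m0
  have m1 : ∀ z ∈ v1 + Z1, z = S.A0 ∨ z = S.E ∨ z = S.A1 ∨ z = S.e := by
    intro z hz
    rcases mem_add.1 hz with hz | hz
    · rcases m0 y1 (by rw [hY0]; exact mem_cons_self _ _) with rfl | rfl
      · simp only [s2, Option.some.injEq] at hy1
        subst hy1
        rw [mem_singleton] at hz
        simp [hz]
      · simp only [s2, Option.some.injEq] at hy1
        subst hy1
        rw [mem_singleton] at hz
        simp [hz]
    · rcases m0 z (by rw [hY0]; exact mem_cons_of_mem hz) with h | h <;> simp [h]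
  have a1 : S.A0 ∈ v1 + Z1 ∨ S.A1 ∈ v1 + Z1 := by
    rw [hY0] at a0
    rcases mem_cons.1 a0 with h | h
    · subst h
      simp only [s2, Option.some.injEq] at hy1
      subst hy1
      right
      simp
    · left
      exact mem_add.2 (Or.inr h)
  have L1 : Lam (v1 + Z1) = 1 ∨ Lam (v1 + Z1) = -1 := by
    have h0 : Lam (y1 ::ₘ Z1) = 0 := by rw [← hY0]; exact L0
    rw [Lam_cons] at h0
    rw [Lam_add]
    rcases Lam_s2 hy1 with ⟨_, h⟩ | ⟨_, _, h⟩ <;> omega
  rcases k with _ | k
  · exact absurd h.1 (by simp)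
  obtain ⟨c2, j2, n2, hs2, h, rfl⟩ := h
  obtain ⟨rfl, y2, v2, Z2, hy2, hY1, rfl⟩ := start_step acts (κ := .s1 q) (κ' := .s2 q) rfl
    (by intro κ'' w j h; cases h) (by
      intro z hz
      rcases m1 z hz with rfl | rfl | rfl | rfl <;> rfl)
    (by
      rcases a1 with h | h
      · exact ⟨_, h, by simp [s2]⟩
      · exact ⟨_, h, by simp [s2]⟩) hs2
  have m2 : ∀ z ∈ v2 + Z2, z = S.A0 ∨ z = S.E ∨ z = S.A1 ∨ z = S.e ∨ z = S.A2 := by
    intro z hz
    rcases mem_add.1 hz with hz | hz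
    · rcases m1 y2 (by rw [hY1]; exact mem_cons_self _ _) with rfl | rfl | rfl | rfl
      all_goals
        simp only [s2, Option.some.injEq] at hy2
        subst hy2
        simp at hz
      all_goals simp [hz]
    · rcases m1 z (by rw [hY1]; exact mem_cons_of_mem hz) with h | h | h | h <;> simp [h]
  have a2 : S.A0 ∈ v2 + Z2 ∨ S.A1 ∈ v2 + Z2 ∨ S.A2 ∈ v2 + Z2 := by
    rw [hY1] at a1
    rcases a1 with a1 | a1
    · rcases mem_cons.1 a1 with h | h
      · subst h
        simp only [s2, Option.some.injEq] at hy2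
        subst hy2
        simp
      · left
        exact mem_add.2 (Or.inr h)
    · rcases mem_cons.1 a1 with h | h
      · subst h
        simp only [s2, Option.some.injEq] at hy2
        subst hy2
        simp
      · right
        left
        exact mem_add.2 (Or.inr h)
  have L2 : Lam (v2 + Z2) = 2 ∨ Lam (v2 + Z2) = 0 ∨ Lam (v2 + Z2) = -2 := by
    have h0 : Lam (y2 ::ₘ Z2) = 1 ∨ Lam (y2 ::ₘ Z2) = -1 := by rw [← hY1]; exact L1
    rw [Lam_cons] at h0
    rw [Lam_add]
    rcases Lam_s2 hy2 with ⟨_, h⟩ | ⟨_, _, h⟩ <;> omega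
  rcases k with _ | k
  · exact absurd h.1 (by simp)
  obtain ⟨c3, j3, n3, hs3, h, rfl⟩ := h
  obtain ⟨rfl, y3, v3, Z3, hy3, hY2, rfl⟩ := start_step acts (κ := .s2 q) (κ' := .t0 q) rfl
    (by intro κ'' w j h; cases h) (by
      intro z hz
      rcases m2 z hz with rfl | rfl | rfl | rfl | rfl <;> rfl)
    (by
      rcases a2 with h | h | h
      · exact ⟨_, h, by simp [s2]⟩
      · exact ⟨_, h, by simp [s2]⟩
      · exact ⟨_, h, by simp [s2]⟩) hs3
  have m3 : ∀ z ∈ v3 + Z3, z = S.A0 ∨ z = S.E ∨ z = S.A1 ∨ z = S.e ∨ z = S.A2 ∨ z = S.B0 := by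
    intro z hz
    rcases mem_add.1 hz with hz | hz
    · rcases m2 y3 (by rw [hY2]; exact mem_cons_self _ _) with rfl | rfl | rfl | rfl | rfl
      all_goals
        simp only [s2, Option.some.injEq] at hy3
        subst hy3
        simp at hz
      all_goals simp [hz]
    · rcases m2 z (by rw [hY2]; exact mem_cons_of_mem hz) with h | h | h | h | h <;> simp [h]
  have L3 : Lam (v3 + Z3) ≠ 0 := by
    have h0 : Lam (y3 ::ₘ Z3) = 2 ∨ Lam (y3 ::ₘ Z3) = 0 ∨ Lam (y3 ::ₘ Z3) = -2 := by
      rw [← hY2]; exact L2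
    rw [Lam_cons] at h0
    rw [Lam_add]
    rcases Lam_s2 hy3 with ⟨_, h⟩ | ⟨_, _, h⟩ <;> omega
  by_cases hB : S.B0 ∈ v3 + Z3
  · -- backwards
    have hB2 : S.B0 ∉ Z3 := fun hh => by
      have := m2 _ (by rw [hY2]; exact mem_cons_of_mem hh)
      simp at this
    have hB3 : S.B0 ∈ v3 := (mem_add.1 hB).resolve_right hB2
    have e3 : y3 = .A2 ∧ v3 = {.B0} := by
      rcases m2 y3 (by rw [hY2]; exact mem_cons_self _ _) with rfl | rfl | rfl | rfl | rfl
      all_goals
        simp only [s2, Option.some.injEq] at hy3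
        subst hy3
        simp at hB3
      simp
    obtain ⟨rfl, rfl⟩ := e3
    have hA2 : S.A2 ∈ v2 := by
      have h1 : S.A2 ∈ v2 + Z2 := by rw [hY2]; exact mem_cons_self _ _
      refine (mem_add.1 h1).resolve_right fun hh => ?_
      have := m1 _ (by rw [hY1]; exact mem_cons_of_mem hh)
      simp at this
    have e2 : y2 = .A1 ∧ v2 = {.A2} := by
      rcases m1 y2 (by rw [hY1]; exact mem_cons_self _ _) with rfl | rfl | rfl | rfl
      all_goals
        simp only [s2, Option.some.injEq] at hy2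
        subst hy2
        simp at hA2
      simp
    obtain ⟨rfl, rfl⟩ := e2
    have hA1 : S.A1 ∈ v1 := by
      have h1 : S.A1 ∈ v1 + Z1 := by rw [hY1]; exact mem_cons_self _ _
      refine (mem_add.1 h1).resolve_right fun hh => ?_
      have := m0 _ (by rw [hY0]; exact mem_cons_of_mem hh)
      simp at this
    have e1 : y1 = .A0 ∧ v1 = {.A1} := by
      rcases m0 y1 (by rw [hY0]; exact mem_cons_self _ _) with rfl | rfl
      all_goals
        simp only [s2, Option.some.injEq] at hy1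
        subst hy1
        simp at hA1
      simp
    obtain ⟨rfl, rfl⟩ := e1
    rw [hAE] at hY0
    rw [singleton_add] at hY1 hY2
    have z0 : AE x y = Z1 := (cons_inj_right _).1 hY0
    have z1 : Z1 = Z2 := (cons_inj_right _).1 hY1
    have z2 : Z2 = Z3 := (cons_inj_right _).1 hY2
    refine ⟨k, rfl, ?_⟩
    rw [singleton_add, ← z2, ← z1, ← z0] at h
    simpa using h
  · exfalso
    rcases k with _ | k
    · exact absurd h.1 (by simp)
    obtain ⟨c4, j4, n4, hs4, h, rfl⟩ := h
    have hY : ∀ z ∈ v3 + Z3, s1 z = none := by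
      intro z hz
      rcases m3 z hz with rfl | rfl | rfl | rfl | rfl | rfl
      · rfl
      · rfl
      · rfl
      · rfl
      · rfl
      · exact absurd hz hB
    generalize v3 + Z3 = W at *
    cases hs4 with
    | ss hx hy =>
      rw [hY _ (mem_cons_self _ _)] at hx
      exact absurd hx (by simp)
    | sk hx h =>
      rw [hY _ (mem_cons_self _ _)] at hx
      exact absurd hx (by simp)
    | ks h9 hy => exact absurd h9 (by simp [k1])
    | si hx _ _ =>
      rw [hY _ (mem_cons_self _ _)] at hx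
      exact absurd hx (by simp)
    | ki h9 hZ => exact absurd h9 (by simp [k1])
    | ik h9 hZ => exact L3 (Lam_calm hZ)

end Pool.Agent.H96.PC
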