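import Pool.Agent.H96.PC.Sys

/-!
Steps and halting of the P system in terms of the region contents without the catalysts.
-/

set_option linter.unusedSectionVars false

namespace Pool.Agent.H96.PC

open Multiset Pool.Agent.H75.PSys

variable {Q : Type} [Fintype Q] [DecidableEq Q]

omit [Fintype Q] [DecidableEq Q] in
private theorem StepIff_mem_fl {O : Type} {t : Target} {v : Out O} {o : O} :
    o ∈ fl t v ↔ (o, t) ∈ v := by
  simp only [fl, mem_map, mem_filter]
  constructor
  · rintro ⟨⟨o', t'⟩, ⟨h, h'⟩, h''⟩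
    simp only at h' h''
    rw [← h', ← h'']
    exact h
  · intro h
    exact ⟨_, ⟨h, rfl⟩, rfl⟩

private theorem StepIff_prods_clean {acts : Q → List (Act Q)} {X : Multiset (Obj Q)}
    {a b : Pick (Obj Q)} (h : LocalMax T1 (T2 acts) X a b) :
    ∀ p ∈ prods a + prods b, p.1 ≠ .c1 ∧ p.1 ≠ .c2 ∧ p.2 ≠ Target.inn := by
  intro p hp
  rw [mem_add] at hp
  rcases hp with hp | hp
  · rcases a with _ | ⟨o, v⟩
    · simp [prods] at hp
    · exact (T1_clean _ _ (h.val1 o v rfl)).2.2 p hp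
  · rcases b with _ | ⟨o, v⟩
    · simp [prods] at hp
    · exact (T2_clean acts _ _ (h.val2 o v rfl)).2.2 p hp

omit [Fintype Q] [DecidableEq Q] in
private theorem StepIff_filter {O M : Type} [DecidableEq M] (D : Multiset (O × Target × Option M))
    (d : Option M) (t : Target) (h : ∀ q ∈ D, (q.2.2 = d ↔ q.2.1 = t)) :
    (D.filter (fun q => q.2.2 = d)).map Prod.fst = fl t (D.map (fun q => (q.1, q.2.1))) := by
  unfold fl
  rw [filter_map, map_map]
  have h1 : D.filter (fun q => q.2.2 = d) =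
      D.filter ((fun p : O × Target => p.2 = t) ∘ fun q => (q.1, q.2.1)) :=
    filter_congr h
  rw [h1]
  rfl

private theorem StepIff_raw (acts : Q → List (Act Q)) {X : Multiset (Obj Q)} {n : ℕ}
    (hX : Obj.c1 ∉ X ∧ Obj.c2 ∉ X) {Us : Unit → Rule (Obj Q) → Prop}
    (hus : ∀ m ρ, Us m ρ ↔ ρ ∈ rulesOf .c1 .c2 T1 (T2 acts))
    (reg' : Unit → Multiset (Obj Q)) (env' : ℕ) :
    RawStep (fun _ : Unit => (none : Option Unit)) Us (fun _ => .c1 ::ₘ .c2 ::ₘ X) n reg' env' ↔
      ∃ X' j, LS acts X X' j ∧ reg' = (fun _ => .c1 ::ₘ .c2 ::ₘ X') ∧ env' = n + j := by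
  have hmaxiff : ∀ (m : Unit) (σ : Multiset (Rule (Obj Q))),
      RawMax (Us m) (.c1 ::ₘ .c2 ::ₘ X) σ ↔
      ∃ a b : Pick (Obj Q), LocalMax T1 (T2 acts) X a b ∧
        σ = toRules .c1 a + toRules .c2 b := by
    intro m σ
    refine maxApplicable_iff (c1 := Obj.c1) (c2 := Obj.c2) (by simp)
      ?_ ?_ (hus m) hX.1 hX.2 σ
    · intro v
      exact ⟨fun h => (T1_clean _ _ h).1 rfl, fun h => (T1_clean _ _ h).2.1 rfl⟩
    · intro v
      exact ⟨fun h => (T2_clean acts _ _ h).1 rfl, fun h => (T2_clean acts _ _ h).2.1 rfl⟩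
  constructor
  · rintro ⟨σ, D, hmax, hD, hdest, hreg, henv⟩
    obtain ⟨a, b, hL, hσ⟩ := (hmaxiff () (σ ())).1 (hmax ())
    have hD' : (D ()).map (fun q => (q.1, q.2.1)) = prods a + prods b := by
      rw [hD (), hσ, add_bind, bind_prod_toRules, bind_prod_toRules]
    have hobj : (σ ()).map Rule.obj = used a + used b := by
      rw [hσ, Multiset.map_add, map_obj_toRules, map_obj_toRules]
    have hdd : ∀ q ∈ D (), (q.2.2 = some () ↔ q.2.1 = .here) ∧ (q.2.2 = none ↔ q.2.1 = .out) := by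
      intro q hq
      have h := hdest () q hq
      obtain ⟨o, t, d⟩ := q
      cases t with
      | here =>
        change d = some () at h
        subst h
        simp
      | out =>
        change d = none at h
        subst h
        simp
      | inn =>
        obtain ⟨m', hm', _⟩ := h
        simp at hm'
    refine ⟨X - (used a + used b) + fl .here (prods a + prods b),
      card (fl .out (prods a + prods b)), ⟨a, b, hL, rfl, rfl⟩, ?_, ?_⟩
    · funext m
      rw [hreg m, Fintype.sum_unique]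
      change (Obj.c1 ::ₘ Obj.c2 ::ₘ X) - (σ ()).map Rule.obj +
        ((D ()).filter (fun q => q.2.2 = some ())).map Prod.fst = _
      rw [StepIff_filter (D ()) (some ()) .here (fun q hq => (hdd q hq).1), hD', hobj]
      have hle := hL.le
      rw [Multiset.cons_sub_of_le _ (hle.trans (le_cons_self _ _)),
        Multiset.cons_sub_of_le _ hle, cons_add, cons_add]
    · rw [henv, Fintype.sum_unique]
      change n + card ((D ()).filter (fun q => q.2.2 = none)) = _
      rw [← hD', ← StepIff_filter (D ()) none .out (fun q hq => (hdd q hq).2), card_map]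
  · rintro ⟨X', j, ⟨a, b, hL, hX', hj⟩, rfl, rfl⟩
    have hno := StepIff_prods_clean hL
    obtain ⟨D, hDd⟩ : ∃ D : Multiset (Obj Q × Target × Option Unit),
        D = (prods a + prods b).map (fun p => (p.1, p.2, if p.2 = .here then some () else none)) :=
      ⟨_, rfl⟩
    have hmap : D.map (fun q => (q.1, q.2.1)) = prods a + prods b := by
      rw [hDd, Multiset.map_map]
      exact map_id' _
    have hdd : ∀ q ∈ D, (q.2.2 = some () ↔ q.2.1 = .here) ∧ (q.2.2 = none ↔ q.2.1 = .out) := by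
      intro q hq
      rw [hDd, mem_map] at hq
      obtain ⟨p, hp, rfl⟩ := hq
      have := (hno p hp).2.2
      obtain ⟨o, t⟩ := p
      cases t with
      | here => simp
      | out => simp
      | inn => exact absurd rfl this
    refine ⟨fun _ => toRules .c1 a + toRules .c2 b, fun _ => D, ?_, ?_, ?_, ?_, ?_⟩
    · exact fun m => (hmaxiff m _).2 ⟨a, b, hL, rfl⟩
    · intro m
      rw [add_bind, bind_prod_toRules, bind_prod_toRules]
      exact hmap
    · intro m q hq
      rw [hDd, mem_map] at hq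
      obtain ⟨p, hp, rfl⟩ := hq
      have := (hno p hp).2.2
      obtain ⟨o, t⟩ := p
      cases t with
      | here => rfl
      | out => rfl
      | inn => exact absurd rfl this
    · intro m
      rw [Fintype.sum_unique, Multiset.map_add, map_obj_toRules, map_obj_toRules]
      change Obj.c1 ::ₘ Obj.c2 ::ₘ X' = (Obj.c1 ::ₘ Obj.c2 ::ₘ X) - (used a + used b) +
        (D.filter (fun q => q.2.2 = some ())).map Prod.fst
      rw [StepIff_filter D (some ()) .here (fun q hq => (hdd q hq).1), hmap]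
      have hle := hL.le
      rw [hX', Multiset.cons_sub_of_le _ (hle.trans (le_cons_self _ _)),
        Multiset.cons_sub_of_le _ hle, cons_add, cons_add]
    · rw [Fintype.sum_unique, hj]
      change n + _ = n + card (D.filter (fun q => q.2.2 = none))
      rw [← hmap, ← StepIff_filter D none .out (fun q hq => (hdd q hq).2), card_map]

private theorem StepIff_usable (acts : Q → List (Act Q)) (q0 : Q) (m : Unit)
    (ρ : Rule (Obj Q)) :
    (sys acts q0).Usable m ρ ↔ ρ ∈ rulesOf .c1 .c2 T1 (T2 acts) := by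
  constructor
  · exact fun h => h.1
  · intro h
    refine ⟨h, ?_⟩
    rintro ⟨p, hp, hi⟩
    exfalso
    rcases h with ⟨_, hv⟩ | ⟨_, hv⟩
    · exact ((T1_clean _ _ hv).2.2 p hp).2.2 hi
    · exact ((T2_clean acts _ _ hv).2.2 p hp).2.2 hi

theorem LS.clean {acts : Q → List (Act Q)} {X X' : Multiset (Obj Q)} {j : ℕ}
    (hX : Obj.c1 ∉ X ∧ Obj.c2 ∉ X) (h : LS acts X X' j) : Obj.c1 ∉ X' ∧ Obj.c2 ∉ X' := by
  obtain ⟨a, b, hL, rfl, -⟩ := h
  have hc := StepIff_prods_clean hL
  constructor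
  · intro hm
    rw [mem_add] at hm
    rcases hm with hm | hm
    · exact hX.1 (mem_of_le (Multiset.sub_le_self _ _) hm)
    · rw [StepIff_mem_fl] at hm
      exact (hc _ hm).1 rfl
  · intro hm
    rw [mem_add] at hm
    rcases hm with hm | hm
    · exact hX.2 (mem_of_le (Multiset.sub_le_self _ _) hm)
    · rw [StepIff_mem_fl] at hm
      exact (hc _ hm).2.1 rfl

theorem step_iff (acts : Q → List (Act Q)) (q0 : Q) {X : Multiset (Obj Q)} {n : ℕ}
    (hX : Obj.c1 ∉ X ∧ Obj.c2 ∉ X) (c' : (sys acts q0).Conf) :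
    (sys acts q0).Step (conf acts q0 X n) c' ↔
      ∃ X' j, LS acts X X' j ∧ c' = conf acts q0 X' (n + j) := by
  rw [step_iff_raw]
  refine (StepIff_raw acts hX (fun m ρ => StepIff_usable acts q0 m ρ) c'.reg c'.env).trans ?_
  refine exists_congr fun X' => exists_congr fun j => and_congr_right fun _ => ?_
  constructor
  · rintro ⟨h1, h2⟩
    exact PSystem.Conf.ext h1 h2
  · rintro rfl
    exact ⟨rfl, rfl⟩

theorem halting_iff (acts : Q → List (Act Q)) (q0 : Q) {X : Multiset (Obj Q)} {n : ℕ} :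
    (sys acts q0).Halting (conf acts q0 X n) ↔ ∀ o ∈ X, T1 o = ∅ ∧ T2 acts o = ∅ := by
  have key : ∀ (ρ : Rule (Obj Q)), ρ ∈ rulesOf .c1 .c2 T1 (T2 acts) →
      (ρ.lhs ≤ (.c1 ::ₘ .c2 ::ₘ X : Multiset (Obj Q)) ↔ ρ.obj ∈ X) := by
    intro ρ hρ
    have hobj : ρ.obj ≠ .c1 ∧ ρ.obj ≠ .c2 := by
      rcases hρ with ⟨_, hv⟩ | ⟨_, hv⟩
      · exact ⟨(T1_clean _ _ hv).1, (T1_clean _ _ hv).2.1⟩
      · exact ⟨(T2_clean acts _ _ hv).1, (T2_clean acts _ _ hv).2.1⟩
    constructor
    · intro h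
      have := mem_of_le h (show ρ.obj ∈ ρ.lhs by simp [Rule.lhs])
      rw [mem_cons, mem_cons] at this
      rcases this with h1 | h1 | h1
      · exact absurd h1 hobj.1
      · exact absurd h1 hobj.2
      · exact h1
    · intro h
      have h1 : ({ρ.obj} : Multiset (Obj Q)) ≤ X := singleton_le.2 h
      rcases hρ with ⟨hc, _⟩ | ⟨hc, _⟩
      · rw [Rule.lhs, hc]
        calc ({Obj.c1, ρ.obj} : Multiset (Obj Q)) = Obj.c1 ::ₘ {ρ.obj} := rfl
          _ ≤ Obj.c1 ::ₘ Obj.c2 ::ₘ X := cons_le_cons _ (h1.trans (le_cons_self _ _))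
      · rw [Rule.lhs, hc]
        calc ({Obj.c2, ρ.obj} : Multiset (Obj Q)) = Obj.c2 ::ₘ {ρ.obj} := rfl
          _ ≤ Obj.c2 ::ₘ X := cons_le_cons _ h1
          _ ≤ Obj.c1 ::ₘ Obj.c2 ::ₘ X := le_cons_self _ _
  constructor
  · intro h o ho
    constructor
    · by_contra hcon
      obtain ⟨v, hv⟩ := Set.nonempty_iff_ne_empty.2 hcon
      have hr : (⟨.c1, o, v⟩ : Rule (Obj Q)) ∈ rulesOf .c1 .c2 T1 (T2 acts) :=
        Or.inl ⟨rfl, hv⟩
      exact h () _ ((StepIff_usable acts q0 () _).2 hr) ((key _ hr).2 ho)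
    · by_contra hcon
      obtain ⟨v, hv⟩ := Set.nonempty_iff_ne_empty.2 hcon
      have hr : (⟨.c2, o, v⟩ : Rule (Obj Q)) ∈ rulesOf .c1 .c2 T1 (T2 acts) :=
        Or.inr ⟨rfl, hv⟩
      exact h () _ ((StepIff_usable acts q0 () _).2 hr) ((key _ hr).2 ho)
  · intro h m ρ hρ hle
    have hr := (StepIff_usable acts q0 m ρ).1 hρ
    have ho := (key ρ hr).1 hle
    obtain ⟨h1, h2⟩ := h _ ho
    rcases hr with ⟨_, hv⟩ | ⟨_, hv⟩
    · rw [h1] at hv
      exact hv
    · rw [h2] at hv
      exact hv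

end Pool.Agent.H96.PC
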