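import Pool.Agent.H96.PC.Tab

/-!
The P system.
-/

namespace Pool.Agent.H96.PC

open Multiset Pool.Agent.H75.PSys

variable {Q : Type} [Fintype Q] [DecidableEq Q]

/-- The P system with one membrane and one copy of each of the two catalysts that simulates the
unary transducer machine `acts` with initial state `q0`. -/
def sys (acts : Q → List (Act Q)) (q0 : Q) : PSystem where
  O := Obj Q
  C := {.c1, .c2}
  M := Unit
  skin := ()
  parent _ := none
  parent_skin := rfl
  reach_skin _ := Relation.ReflTransGen.refl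
  w _ := {.c1, .c2, .k (.b0 q0), .st .E}
  rules _ := rulesOf .c1 .c2 T1 (T2 acts)
  rules_finite _ := rules_finite _ _ _ _ T1_finite (T2_finite acts)
  catalytic := by
    rintro m ρ (⟨h, hv⟩ | ⟨h, hv⟩)
    · obtain ⟨h1, h2, h3⟩ := T1_clean _ _ hv
      exact ⟨by simp [h], by simp [h1, h2]⟩
    · obtain ⟨h1, h2, h3⟩ := T2_clean acts _ _ hv
      exact ⟨by simp [h], by simp [h1, h2]⟩
  iout := none
  iout_elementary := by simp

/-- No rule produces a catalyst. -/
theorem sys_no_catalyst (acts : Q → List (Act Q)) (q0 : Q) (m : Unit) (ρ : Rule (Obj Q))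
    (hρ : ρ ∈ (sys acts q0).rules m) : ∀ p ∈ ρ.prod, p.1 ∉ (sys acts q0).C := by
  intro p hp
  change p.1 ∉ ({.c1, .c2} : Finset (Obj Q))
  rcases hρ with ⟨h, hv⟩ | ⟨h, hv⟩
  · obtain ⟨h1, h2, h3⟩ := T1_clean _ _ hv
    simp [(h3 p hp).1, (h3 p hp).2.1]
  · obtain ⟨h1, h2, h3⟩ := T2_clean acts _ _ hv
    simp [(h3 p hp).1, (h3 p hp).2.1]

/-- The objects with a given target. -/
def fl {O : Type} (t : Target) (v : Out O) : Multiset O :=
  (v.filter (fun p => p.2 = t)).map Prod.fst

theorem fl_add {O : Type} (t : Target) (v w : Out O) : fl t (v + w) = fl t v + fl t w := by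
  simp [fl, filter_add]

@[simp] theorem fl_zero {O : Type} (t : Target) : fl t (0 : Out O) = 0 := by simp [fl]

theorem fl_cons {O : Type} (t : Target) (p : O × Target) (v : Out O) :
    fl t (p ::ₘ v) = if p.2 = t then p.1 ::ₘ fl t v else fl t v := by
  unfold fl
  by_cases h : p.2 = t
  · rw [filter_cons_of_pos (p := fun p : O × Target => p.2 = t) _ h, map_cons, if_pos h]
  · rw [filter_cons_of_neg (p := fun p : O × Target => p.2 = t) _ h, if_neg h]

theorem fl_singleton {O : Type} (t : Target) (p : O × Target) :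
    fl t ({p} : Out O) = if p.2 = t then {p.1} else 0 := by
  rw [← cons_zero, fl_cons]
  split_ifs <;> simp

/-- The configuration with the non-catalyst objects `X` in the region and `n` objects in the
environment. -/
def conf (acts : Q → List (Act Q)) (q0 : Q) (X : Multiset (Obj Q)) (n : ℕ) :
    (sys acts q0).Conf where
  reg _ := (.c1 ::ₘ .c2 ::ₘ X : Multiset (Obj Q))
  env := n

/-- Steps in terms of the region contents without the catalysts. -/
def LS (acts : Q → List (Act Q)) (X X' : Multiset (Obj Q)) (j : ℕ) : Prop :=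
  ∃ a b : Pick (Obj Q), LocalMax T1 (T2 acts) X a b ∧
    X' = X - (used a + used b) + fl .here (prods a + prods b) ∧
    j = card (fl .out (prods a + prods b))

end Pool.Agent.H96.PC
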