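import Pool.Agent.H96.PC.Obj

/-!
The rule tables are finite, and catalysts are neither consumed nor produced.
-/

namespace Pool.Agent.H96.PC

open Multiset Pool.Agent.H75.PSys

variable {Q : Type}

theorem T1_finite (o : Obj Q) : (T1 o : Set (Out (Obj Q))).Finite := by
  cases o with
  | k κ => cases κ <;> simp [T1]
  | st x => cases x <;> simp [T1]
  | _ => simp [T1]

theorem T2_finite (acts : Q → List (Act Q)) (o : Obj Q) :
    (T2 acts o : Set (Out (Obj Q))).Finite := by
  cases o with
  | k κ =>
    cases κ with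
    | b4 q =>
      have : (T2 acts (.k (.b4 q)) : Set (Out (Obj Q))) ⊆ {v | v ∈ (acts q).map actOut} := by
        rintro v ⟨α, hα, rfl⟩
        exact List.mem_map.2 ⟨α, hα, rfl⟩
      exact Set.Finite.subset (List.finite_toSet _) this
    | _ => simp [T2]
  | st x => cases x <;> simp [T2]
  | _ => simp [T2]

theorem T1_clean (o : Obj Q) (v : Out (Obj Q)) (hv : v ∈ T1 o) :
    o ≠ .c1 ∧ o ≠ .c2 ∧ ∀ p ∈ v, p.1 ≠ .c1 ∧ p.1 ≠ .c2 ∧ p.2 ≠ Target.inn := by
  cases o with
  | k κ => cases κ <;> simp_all [T1, one]
  | st x => cases x <;> simp_all [T1, one]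
  | _ => simp_all [T1, one]

theorem T2_clean (acts : Q → List (Act Q)) (o : Obj Q) (v : Out (Obj Q)) (hv : v ∈ T2 acts o) :
    o ≠ .c1 ∧ o ≠ .c2 ∧ ∀ p ∈ v, p.1 ≠ .c1 ∧ p.1 ≠ .c2 ∧ p.2 ≠ Target.inn := by
  cases o with
  | k κ =>
    cases κ with
    | b4 q =>
      obtain ⟨α, hα, rfl⟩ := hv
      refine ⟨by simp, by simp, ?_⟩
      intro p hp
      cases α with
      | goto o l =>
        simp only [actOut, mem_add, one, mem_singleton] at hp
        rcases hp with hp | rfl
        · split_ifs at hp
          · rw [mem_singleton] at hp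
            subst hp
            simp
          · simp at hp
        · simp
      | win k l =>
        simp only [actOut, mem_add, one, mem_singleton] at hp
        rcases hp with hp | rfl
        · rw [eq_of_mem_replicate hp]
          simp
        · simp
      | pipe k l =>
        simp only [actOut, mem_add, one, mem_singleton] at hp
        rcases hp with hp | rfl
        · rw [eq_of_mem_replicate hp]
          simp
        · simp
      | stop => simp [actOut] at hp
    | _ => simp_all [T2, one]
  | st x => cases x <;> simp_all [T2, one]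
  | _ => simp_all [T2, one]

theorem rules_finite {O : Type} [Fintype O] (c1 c2 : O) (T1 T2 : O → Set (Out O))
    (h1 : ∀ o, (T1 o).Finite) (h2 : ∀ o, (T2 o).Finite) : (rulesOf c1 c2 T1 T2).Finite := by
  have : rulesOf c1 c2 T1 T2 ⊆
      (⋃ o, (fun v => (⟨c1, o, v⟩ : Rule O)) '' T1 o) ∪
      (⋃ o, (fun v => (⟨c2, o, v⟩ : Rule O)) '' T2 o) := by
    rintro ⟨c, o, v⟩ h
    rcases h with ⟨h, hv⟩ | ⟨h, hv⟩
    · left
      simp only at h hv
      subst h
      exact Set.mem_iUnion.2 ⟨o, v, hv, rfl⟩
    · right
      simp only at h hv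
      subst h
      exact Set.mem_iUnion.2 ⟨o, v, hv, rfl⟩
  refine Set.Finite.subset (Set.Finite.union ?_ ?_) this
  · exact Set.finite_iUnion fun o => (h1 o).image _
  · exact Set.finite_iUnion fun o => (h2 o).image _

end Pool.Agent.H96.PC
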