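import Pool.Agent.H96.PC.Inv

/-!
The last phase of the pipeline.
-/

namespace Pool.Agent.H96.PC

open Multiset

variable {Q : Type}

theorem UPhase_bd {x x' : S} (h : s1 x = some x') : bd x := by
  cases x <;> simp only [s1, reduceCtorEq] at h
  · exact Or.inl rfl
  · exact Or.inr (Or.inl rfl)
  · exact Or.inr (Or.inr (Or.inl rfl))
  · exact Or.inr (Or.inr (Or.inr (Or.inl rfl)))

theorem b0_end (acts : Q → List (Act Q)) {k : ℕ} {q : Q} {Y : Multiset S} {n N y0 : ℕ}
    (hI : Inv 1 N y0 Y) (h : Acc acts k (some (.b0 q), Y) n) : y0 = 0 ∧ Y = replicate N .E := by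
  by_cases hb : ∃ z ∈ Y, bd z
  · exact absurd h (first_block acts k (.b0 q) 1 Y n (FB.b0 q) hI.le hb)
  · refine hI.calm ?_
    cases k with
    | zero =>
      have h1 := congrArg Prod.fst h.1
      exact absurd h1 (by simp)
    | succ k =>
      obtain ⟨c', j, n', hs, ha, rfl⟩ := h
      cases hs with
      | ss hx hy => exact absurd ⟨_, mem_cons_self _ _, UPhase_bd hx⟩ hb
      | sk hx hy => exact absurd ⟨_, mem_cons_self _ _, UPhase_bd hx⟩ hb
      | ks hx hy => exact absurd hx (by simp [k1])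
      | si hx hy hc => exact absurd ⟨_, mem_cons_self _ _, UPhase_bd hx⟩ hb
      | ki hx hy => exact absurd hx (by simp [k1])
      | ik hx hy => exact hy

theorem u_phase (acts : Q → List (Act Q)) : ∀ (k : ℕ) (q : Q) (Y : Multiset S) (n N y0 : ℕ),
    Inv 0 N y0 Y → Acc acts k (some (.u q), Y) n →
    y0 = 0 ∧ ∃ k' < k, Acc acts k' (some (.b0 q), replicate N .E) n := by
  intro k
  induction k with
  | zero =>
    intro q Y n N y0 hI h
    have h1 := congrArg Prod.fst h.1
    exact absurd h1 (by simp)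
  | succ k ih =>
    intro q Y n N y0 hI h
    obtain ⟨c', j, n', hs, ha, rfl⟩ := h
    have hlt : ∀ {n'' : ℕ}, (y0 = 0 ∧ ∃ k' < k, Acc acts k' (some (.b0 q), replicate N .E) n'') →
        y0 = 0 ∧ ∃ k' < k + 1, Acc acts k' (some (.b0 q), replicate N .E) (0 + n'') := by
      rintro n'' ⟨h1, k', h2, h3⟩
      exact ⟨h1, k', h2.trans (Nat.lt_succ_self k), by rwa [zero_add]⟩
    cases hs with
    | ss hx hy => exact hlt (ih q _ n' N y0 (Inv.ss hx hy hI) ha)
    | sk hx hy => cases hy
    | ks hx hy =>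
      simp only [k1, Option.some.injEq] at hx
      subst hx
      have h0 := Inv.ks hy hI
      rw [zero_add] at h0
      obtain ⟨h1, h2⟩ := b0_end acts h0 ha
      rw [h2] at ha
      exact ⟨h1, k, Nat.lt_succ_self k, by rwa [zero_add]⟩
    | si hx hy hc => exact hlt (ih q _ n' N y0 (Inv.si hx hy hI) ha)
    | ki hx hy =>
      simp only [k1, Option.some.injEq] at hx
      subst hx
      have h0 := Inv.ki hy hI
      rw [zero_add] at h0
      obtain ⟨h1, h2⟩ := b0_end acts h0 ha
      rw [h2] at ha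
      exact ⟨h1, k, Nat.lt_succ_self k, by rwa [zero_add]⟩
    | ik hx hy => cases hx

end Pool.Agent.H96.PC
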