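import Pool.Agent.H96.PC.MI
import Pool.Agent.H96.PC.Obj

/-!
Simulation of a multiplying and dividing machine by a unary transducer machine.
-/

namespace Pool.Agent.H96.PC

variable {Q : Type} {P : ℕ}

/-- The states of the transducer machine: `mu m l` is the multiplication by `m`, `dv m j l` the
exact division by `m` with `j` units read in the current group, `nd m j l` the test that `m` does
not divide the number, again with `j` units read in the current group. -/
inductive V (Q : Type) (P : ℕ)
  | loc (q : Q)
  | mu (m : Fin (P + 1)) (l : Q)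
  | dv (m j : Fin (P + 1)) (l : Q)
  | nd (m j : Fin (P + 1)) (l : Q)
  deriving DecidableEq, Fintype

/-- Truncation. -/
def fn (P n : ℕ) : Fin (P + 1) := ⟨min n P, by omega⟩

theorem fn_val {P n : ℕ} (h : n ≤ P) : (fn P n).val = n := by simp [fn, h]

/-- The program of the transducer machine. -/
def vacts (mp : Q → MI Q) : V Q P → List (Act (V Q P))
  | .loc q => match mp q with
    | .goto l => [.goto false (.loc l)]
    | .mul m l => [.win m (.mu (fn P m) l)]
    | .div m l0 l1 => [.win 1 (.dv (fn P m) (fn P 1) l1), .win 1 (.nd (fn P m) (fn P 1) l0)]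
    | .emit l => [.goto true (.loc l)]
    | .fork l l' => [.goto false (.loc l), .goto false (.loc l')]
    | .halt => [.stop]
  | .mu m l => [.win m.val (.mu m l), .pipe 0 (.loc l)]
  | .dv m j l => if j.val < m.val then [.win 0 (.dv m (fn P (j.val + 1)) l)]
      else [.win 1 (.dv m (fn P 1) l), .pipe 0 (.loc l)]
  | .nd m j l => if j.val < m.val then [.win 1 (.nd m (fn P (j.val + 1)) l), .pipe 0 (.loc l)]
      else [.win 1 (.nd m (fn P 1) l)]

/-- Something has been written. -/
def vpos : V Q P → Bool
  | .loc _ => false
  | _ => true

theorem vgood {mp : Q → MI Q} (h1 : ∀ q m l, mp q = .mul m l → 0 < m) :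
    Good (vacts mp : V Q P → List (Act (V Q P))) vpos := by
  refine ⟨?_, ?_, ?_⟩
  · intro v o l hl hp
    cases v with
    | loc q =>
      simp only [vacts] at hl
      cases hq : mp q <;> simp only [hq] at hl <;> simp at hl
      all_goals first
        | (rcases hl with ⟨-, rfl⟩ | ⟨-, rfl⟩ <;> simp [vpos] at hp <;> done)
        | (rw [hl.2] at hp; simp [vpos] at hp <;> done)
    | mu m l => rfl
    | dv m j l => rfl
    | nd m j l => rfl
  · intro v m l hl
    cases v with
    | loc q =>
      right
      simp only [vacts] at hl
      cases hq : mp q <;> simp only [hq] at hl <;> simp at hl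
      · obtain ⟨rfl, -⟩ := hl
        exact h1 _ _ _ hq
      · rcases hl with ⟨rfl, -⟩ | ⟨rfl, -⟩ <;> exact Nat.one_pos
    | mu m l => exact Or.inl rfl
    | dv m j l => exact Or.inl rfl
    | nd m j l => exact Or.inl rfl
  · intro v m l hl
    cases v with
    | loc q =>
      simp only [vacts] at hl
      cases hq : mp q <;> simp only [hq] at hl <;> simp at hl
    | mu m' l' =>
      refine ⟨Or.inl rfl, ?_⟩
      simp [vacts] at hl
      rw [hl.2]
      rfl
    | dv m' j l' =>
      refine ⟨Or.inl rfl, ?_⟩
      simp only [vacts] at hl
      split_ifs at hl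
      · simp at hl
      · simp at hl
        rw [hl.2]
        rfl
    | nd m' j l' =>
      refine ⟨Or.inl rfl, ?_⟩
      simp only [vacts] at hl
      split_ifs at hl
      · simp at hl
        rw [hl.2]
        rfl
      · simp at hl

theorem vacts_ne (mp : Q → MI Q) (v : V Q P) : vacts mp v ≠ [] := by
  cases v with
  | loc q =>
    simp only [vacts]
    cases mp q <;> simp
  | mu m l => simp [vacts]
  | dv m j l =>
    simp only [vacts]
    split_ifs <;> simp
  | nd m j l =>
    simp only [vacts]
    split_ifs <;> simp

end Pool.Agent.H96.PC
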